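import Pool.Agent.MP_c6cf52_lc.Defs

namespace Pool.Agent.MP_be203f_lc

open Pool.Agent.MP_c6cf52_lc

universe u

variable {M : Type u} (E : M → M → Prop)

/-- Inclusion. -/
def Sub (a b : M) : Prop := ∀ x, E x a → E x b

/-- `w` is the first infinite ordinal: a nonzero limit ordinal all of whose nonzero members have a
largest member. -/
def IsOmega (w : M) : Prop :=
  IsOrd E w ∧ (∃ x, E x w) ∧ (∀ x, E x w → ∃ y, E y w ∧ E x y) ∧
    ∀ x, E x w → (∃ y, E y x) → ∃ y, E y x ∧ ∀ z, E z x → ¬ E y z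

/-- `m` is the least ordinal into which the power set of `k` injects. -/
def IsExp (k m : M) : Prop :=
  ∃ Q, (∀ x, E x Q ↔ Sub E x k) ∧ (∃ f, IsInj E f Q m) ∧ ∀ a, E a m → ¬ ∃ f, IsInj E f Q a

/-- `T` is a topology on `X`. -/
def IsTop (X T : M) : Prop :=
  (∀ U, E U T → Sub E U X) ∧ E X T ∧
    (∀ U V W, E U T → E V T → (∀ x, E x W ↔ E x U ∧ E x V) → E W T) ∧
    ∀ S W, Sub E S T → (∀ x, E x W ↔ ∃ U, E U S ∧ E x U) → E W T

/-- The topology `T` has a base of cardinality at most `l`. -/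
def WeightLe (T l : M) : Prop :=
  ∃ B f, Sub E B T ∧ (∀ U x, E U T → E x U → ∃ V, E V B ∧ E x V ∧ Sub E V U) ∧ IsInj E f B l

/-- The family `C` covers `X`. -/
def Covers (C X : M) : Prop := ∀ x, E x X → ∃ U, E U C ∧ E x U

/-- Every open cover has a subcover of cardinality below `k`. -/
def KCompact (k X T : M) : Prop :=
  ∀ C, Sub E C T → Covers E C X →
    ∃ D a f, Sub E D C ∧ Covers E D X ∧ E a k ∧ IsInj E f D a

/-- `Y` is the square of `X` and `S` is the product topology on it. -/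
def IsSquare (X T Y S : M) : Prop :=
  (∀ p, E p Y ↔ ∃ a b, E a X ∧ E b X ∧ IsPair E p a b) ∧
    ∀ W, E W S ↔ Sub E W Y ∧ ∀ p a b, E p W → IsPair E p a b →
      ∃ U V, E U T ∧ E V T ∧ E a U ∧ E b V ∧
        ∀ q c d, E c U → E d V → IsPair E q c d → E q W

/-- `k` is `l`-square compact. -/
def SqCompact (k l : M) : Prop :=
  ∀ X T Y S, IsTop E X T → WeightLe E T l → IsSquare E X T Y S →
    KCompact E k X T → KCompact E k Y S

end Pool.Agent.MP_be203f_lc
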