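import Pool.Agent.MP_4faeaf_lc.Base

namespace Pool.Agent.MP_be203f_lc

open Cardinal Set Pool.Agent.MP_4faeaf_lc

universe u

/-- The partition property. -/
def Part (X : Type u) : Prop :=
  ∀ c : Sym2 X → Bool, ∃ H : Set X, #H = #X ∧ ∃ i, ∀ a ∈ H, ∀ b ∈ H, a ≠ b → c s(a, b) = i

/-- There is a countably complete nonprincipal ultrafilter. -/
def Meas (X : Type u) : Prop :=
  ∃ U : Ultrafilter X, (∀ x, {x} ∉ U) ∧ ∀ f : X → ℕ, ∃ n, f ⁻¹' {n} ∈ U

section Normal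

variable {Z : Type u} [LinearOrder Z] [Ms Z]

theorem exists_normal : ∃ D : Ultrafilter Z, (∀ x, Ioi x ∈ D) ∧
    (∀ {ι : Type u} (s : ι → Set Z), #ι < #Z → (∀ i, s i ∈ D) → (⋂ i, s i) ∈ D) ∧
    ∀ B : Z → Set Z, (∀ x, B x ∈ D) → {α | ∀ x < α, α ∈ B x} ∈ D := by
  classical
  have wf : WellFounded fun F' F : Z → Z => {α | F' α < F α} ∈ UU Z := by
    rw [wellFounded_iff_isEmpty_descending_chain]
    refine ⟨fun ⟨s, hs⟩ => ?_⟩
    obtain ⟨α, hα⟩ := Ultrafilter.nonempty_of_mem (comp_ct _ hs)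
    exact (wellFounded_iff_isEmpty_descending_chain.1 wellFounded_lt).false
      ⟨fun n => s n α, fun n => mem_iInter.1 hα n⟩
  obtain ⟨g, hg, hmin⟩ := wf.has_min {g : Z → Z | ∀ x, {α | x < g α} ∈ UU Z} ⟨id, Ioi_mem⟩
  have comp : ∀ {ι : Type u} (s : ι → Set Z), #ι < #Z → (∀ i, s i ∈ (UU Z).map g) →
      (⋂ i, s i) ∈ (UU Z).map g := by
    intro ι s hι h
    rw [Ultrafilter.mem_map, preimage_iInter]
    exact Ms.comp _ hι h
  refine ⟨(UU Z).map g, hg, comp, fun B hB => ?_⟩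
  by_contra hn
  have hc := Ultrafilter.compl_mem_iff_notMem.2 hn
  have : ∀ α, ∃ x, α ∈ {α | ∀ x < α, α ∈ B x}ᶜ → x < α ∧ α ∉ B x := by
    intro α
    by_cases h : ∀ x < α, α ∈ B x
    · exact ⟨α, fun h' => absurd h h'⟩
    · push Not at h
      obtain ⟨x, hx⟩ := h
      exact ⟨x, fun _ => hx⟩
  choose h hh using this
  have h₁ : ¬ ∀ x, {α | x < h (g α)} ∈ UU Z := fun H =>
    hmin (fun α => h (g α)) H (Filter.mem_of_superset hc fun α hα => (hh _ hα).1)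
  push Not at h₁
  obtain ⟨x, hx⟩ := h₁
  have h₂ : {α | x < h α}ᶜ ∈ (UU Z).map g := Ultrafilter.compl_mem_iff_notMem.2 hx
  have h₃ := comp (fun y : Iio x => B y.1) (Ms.small x) fun y => hB y.1
  obtain ⟨α, ⟨⟨a₁, a₂⟩, a₃⟩, a₄⟩ := Ultrafilter.nonempty_of_mem
    (Filter.inter_mem (Filter.inter_mem (Filter.inter_mem hc h₂) h₃) (hB x))
  rcases (not_lt.1 a₂).eq_or_lt with e | e
  · exact (hh _ a₁).2 (e ▸ a₄)
  · exact (hh _ a₁).2 (mem_iInter.1 a₃ ⟨_, e⟩)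

theorem bool_lim {Z : Type u} (D : Ultrafilter Z) (f : Z → Bool) : ∃ i, {α | f α = i} ∈ D := by
  by_cases h : {α | f α = true} ∈ D
  · exact ⟨true, h⟩
  · exact ⟨false, Filter.mem_of_superset (Ultrafilter.compl_mem_iff_notMem.2 h)
      fun α hα => by simpa using hα⟩

theorem reflect : ∃ α : Z, Uncountable (Iio α) ∧ Part (Iio α) := by
  classical
  by_contra hn
  push Not at hn
  obtain ⟨D, hI, comp, diag⟩ := exists_normal (Z := Z)
  have : ∀ α : Z, ∃ c : Sym2 (Iio α) → Bool, Uncountable (Iio α) → ∀ H : Set (Iio α),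
      #H = #(Iio α) → ∀ i, ¬ ∀ a ∈ H, ∀ b ∈ H, a ≠ b → c s(a, b) = i := by
    intro α
    by_cases h : Uncountable (Iio α)
    · have := hn α h
      unfold Part at this
      push Not at this
      obtain ⟨c, hc⟩ := this
      refine ⟨c, fun _ H hH i h' => ?_⟩
      obtain ⟨a, ha, b, hb, h₁, h₂⟩ := hc H hH i
      exact h₂ (h' a ha b hb h₁)
    · exact ⟨fun _ => true, fun h' => absurd h' h⟩
  choose c' hc' using this
  let cc : Z → Z → Z → Bool := fun x y α =>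
    if h : x < α ∧ y < α then c' α s(⟨x, h.1⟩, ⟨y, h.2⟩) else false
  choose c hc using fun x y => bool_lim D (cc x y)
  choose i hi using fun x => bool_lim D (c x)
  obtain ⟨i₀, hi₀⟩ := bool_lim D i
  let H : Set Z := {x | i x = i₀} ∩ {α | ∀ x < α, α ∈ {y | c x y = i x}}
  have hH : H ∈ D := Filter.inter_mem hi₀ (diag _ hi)
  have hcard : #Z ≤ #H := by
    by_contra h
    obtain ⟨α, a₁, a₂⟩ := Ultrafilter.nonempty_of_mem
      (Filter.inter_mem hH (comp (fun y : H => Ioi y.1) (not_le.1 h) fun y => hI y.1))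
    exact lt_irrefl α (mem_iInter.1 a₂ ⟨α, a₁⟩)
  obtain ⟨e⟩ := hcard
  obtain ⟨x₀, hx₀⟩ := exists_unc (X := Z)
  obtain ⟨α, ⟨a₁, a₂⟩, a₃⟩ := Ultrafilter.nonempty_of_mem (Filter.inter_mem (Filter.inter_mem
    (hI x₀) (diag (fun x => Ioi (e x).1) fun x => hI _))
    (diag (fun y => ⋂ x : Iio y, {α | cc x.1 y α = c x.1 y})
      fun y => comp _ (Ms.small y) fun x => hc _ _))
  have hu : Uncountable (Iio α) := by
    rw [← not_countable_iff, countable_coe_iff]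
    exact fun h => hx₀ (h.mono (Iio_subset_Iio (le_of_lt a₁)))
  have key : ∀ a b : Iio α, a.1 ∈ H → b.1 ∈ H → a < b → c' α s(a, b) = i₀ := by
    intro a b ha hb hab
    have h₁ : cc a.1 b.1 α = c a.1 b.1 := mem_iInter.1 (a₃ b.1 b.2) ⟨a.1, hab⟩
    have h₂ : c a.1 b.1 = i a.1 := hb.2 a.1 hab
    have h₃ : i a.1 = i₀ := ha.1
    have h₄ : cc a.1 b.1 α = c' α s(a, b) := dif_pos ⟨a.2, b.2⟩
    rw [← h₄, h₁, h₂, h₃]
  refine hc' α hu {z | z.1 ∈ H} (le_antisymm (mk_set_le _) ⟨⟨fun x => ⟨⟨(e x.1).1, a₂ x.1 x.2⟩,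
    (e x.1).2⟩, fun x y h => Subtype.ext (e.injective (Subtype.ext
      (congrArg (fun z => z.1.1) h)))⟩⟩) i₀ fun a ha b hb hab => ?_
  rcases lt_or_gt_of_ne hab with h | h
  · exact key a b ha hb h
  · rw [Sym2.eq_swap]; exact key b a hb ha h

end Normal

theorem exists_ms {Z : Type u} (hZ : Meas Z) (hmin : ∀ Y : Type u, Meas Y → #Z ≤ #Y) :
    ∃ _ : LinearOrder Z, Nonempty (Ms Z) := by
  classical
  obtain ⟨U, np, hU⟩ := hZ
  obtain ⟨r, wo, hr⟩ := Cardinal.exists_ord_eq Z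
  refine ⟨IsWellOrder.linearOrder r, ⟨@Ms.mk Z (IsWellOrder.linearOrder r) U ⟨wo.wf⟩ ?_ np
    (fun x => card_typein_lt x hr) ?_⟩⟩
  · intro ι s hι h
    by_contra hn
    have hc := Ultrafilter.compl_mem_iff_notMem.2 hn
    obtain ⟨z₀, hz₀⟩ := Ultrafilter.nonempty_of_mem hc
    obtain ⟨i₀, -⟩ : ∃ i, z₀ ∉ s i := by simpa using hz₀
    have : ∀ z, ∃ i, z ∈ (⋂ i, s i)ᶜ → z ∉ s i := fun z => by
      by_cases h : ∃ i, z ∉ s i
      · exact ⟨h.choose, fun _ => h.choose_spec⟩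
      · exact ⟨i₀, fun h' => absurd (by simpa using h') h⟩
    choose φ hφ using this
    have h₁ : ¬ ∀ i, {i} ∉ U.map φ := fun H =>
      not_le.2 hι (hmin ι ⟨U.map φ, H, fun f => hU (f ∘ φ)⟩)
    push Not at h₁
    obtain ⟨i, hi⟩ := h₁
    obtain ⟨z, ⟨a₁, a₂⟩, a₃⟩ := Ultrafilter.nonempty_of_mem
      (Filter.inter_mem (Filter.inter_mem hc hi) (h i))
    exact hφ z a₁ ((show φ z = i from a₂) ▸ a₃)
  · by_contra h
    have : Countable Z := mk_le_aleph0_iff.1 (not_lt.1 h)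
    obtain ⟨f, hf⟩ := exists_injective_nat Z
    obtain ⟨n, hn⟩ := hU f
    obtain ⟨z, hz⟩ := Ultrafilter.nonempty_of_mem hn
    exact np z (Filter.mem_of_superset hn fun y hy => hf (hy.trans hz.symm))

theorem exists_min_type (Q : Type u → Prop) {X : Type u} (h : Q X) :
    ∃ Y, Q Y ∧ ∀ Y', Q Y' → #Y ≤ #Y' := by
  obtain ⟨_, ⟨Y, hY, rfl⟩, hmin⟩ := wellFounded_lt.has_min {c : Cardinal.{u} | ∃ Y, Q Y ∧ #Y = c}
    ⟨_, X, h, rfl⟩
  exact ⟨Y, hY, fun Y' h' => not_lt.1 (hmin _ ⟨Y', h', rfl⟩)⟩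

/-- A weakly compact cardinal below the first measurable one, as a well-order. -/
class WC (X : Type u) [LinearOrder X] : Prop where
  wf : WellFoundedLT X
  small : ∀ x : X, #(Iio x) < #X
  unc : ℵ₀ < #X
  part : Part X
  nm : ¬ Meas X

theorem exists_wc {X : Type u} [Uncountable X] (h : Part X) :
    ∃ (Y : Type u) (_ : LinearOrder Y), WC Y := by
  obtain ⟨Y, ⟨h₁, h₂⟩, hmin⟩ := exists_min_type (fun Y => Uncountable Y ∧ Part Y)
    (X := X) ⟨inferInstance, h⟩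
  obtain ⟨r, wo, hr⟩ := Cardinal.exists_ord_eq Y
  refine ⟨Y, IsWellOrder.linearOrder r, @WC.mk Y (IsWellOrder.linearOrder r) ⟨wo.wf⟩
    (fun x => card_typein_lt x hr) aleph0_lt_mk h₂ fun hm => ?_⟩
  obtain ⟨Z, hZ, hZ'⟩ := exists_min_type Meas hm
  obtain ⟨_, ⟨_⟩⟩ := exists_ms hZ hZ'
  obtain ⟨α, hα⟩ := reflect (Z := Z)
  exact not_le.2 ((Ms.small α).trans_le (hZ' Y hm)) (hmin _ hα)

section WC

variable {X : Type u} [LinearOrder X] [WC X]

instance : WellFoundedLT X := WC.wf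

theorem small_Iic (x : X) : #(Iic x) < #X := by
  rw [← Iio_insert, mk_insert (by simp)]
  exact add_lt_of_lt WC.unc.le (WC.small x) (one_lt_aleph0.trans WC.unc)

theorem bdd {ι : Type u} (hι : #ι < #X) (f : ι → X) : ∃ γ, ∀ i, f i < γ := by
  classical
  by_contra hn
  push Not at hn
  choose φ hφ using hn
  obtain ⟨H, hH, i, hi⟩ := WC.part (X := X)
    (Sym2.lift ⟨fun a b => decide (φ a = φ b), fun a b => by simp [eq_comm]⟩)
  cases i with
  | true =>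
    have : H.Nonempty := by
      rw [← nonempty_coe_sort, ← mk_ne_zero_iff, hH]
      exact (WC.unc.trans' aleph0_pos).ne'
    obtain ⟨a, ha⟩ := this
    refine not_le.2 (small_Iic (f (φ a))) (hH ▸ mk_le_mk_of_subset fun b hb => ?_)
    by_cases e : b = a
    · exact e ▸ hφ b
    · have : φ b = φ a := by simpa using hi b hb a ha e
      exact this ▸ hφ b
  | false =>
    refine not_le.2 hι (hH ▸ ⟨⟨fun a => φ a.1, fun a b e => Subtype.ext ?_⟩⟩)
    by_contra hne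
    have : ¬ φ a.1 = φ b.1 := by simpa using hi a.1 a.2 b.1 b.2 hne
    exact this e

theorem exists_gt' (x : X) : ∃ y, x < y := by
  obtain ⟨γ, h⟩ := bdd (ι := PUnit.{u + 1}) (by simpa using one_lt_aleph0.trans WC.unc) fun _ => x
  exact ⟨γ, h ⟨⟩⟩

theorem ev_const' (A : X → Set X) : ∃ H : Set X, (∀ x, ∃ α ∈ H, x < α) ∧
    ∀ j, ∃ β, (∀ α ∈ H, β < α → α ∈ A j) ∨ (∀ α ∈ H, β < α → α ∉ A j) := by
  classical
  let R : X → X → Prop := fun a b => ∀ ξ, (∀ η < ξ, (a ∈ A η ↔ b ∈ A η)) → a ∈ A ξ → b ∈ A ξ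
  have tot : ∀ a b, ¬ R a b → R b a := by
    intro a b h ξ' h₁ h₂
    simp only [R, not_forall] at h
    obtain ⟨ξ, h₃, h₄, h₅⟩ := h
    rcases lt_trichotomy ξ' ξ with e | rfl | e
    · exact (h₃ _ e).2 h₂
    · exact h₄
    · exact absurd ((h₁ _ e).2 h₄) h₅
  obtain ⟨H, hH, i, hi⟩ := WC.part (X := X)
    (Sym2.lift ⟨fun a b => decide (R (min a b) (max a b)), fun a b => by
      simp [min_comm, max_comm]⟩)
  have mono : (∀ a ∈ H, ∀ b ∈ H, a < b → R a b) ∨ ∀ a ∈ H, ∀ b ∈ H, a < b → R b a := by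
    cases i with
    | true =>
      exact Or.inl fun a ha b hb hab => by
        simpa [min_eq_left hab.le, max_eq_right hab.le] using hi a ha b hb hab.ne
    | false =>
      exact Or.inr fun a ha b hb hab => tot _ _ (by
        simpa [min_eq_left hab.le, max_eq_right hab.le] using hi a ha b hb hab.ne)
  refine ⟨H, fun x => ?_, fun j => ?_⟩
  · by_contra h
    push Not at h
    exact not_le.2 (small_Iic x) (hH ▸ mk_le_mk_of_subset h)
  induction j using WellFoundedLT.induction with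
  | ind ξ ih =>
    choose β hβ using ih
    obtain ⟨γ, hγ⟩ := bdd (WC.small ξ) fun η : Iio ξ => β η.1 η.2
    have agree : ∀ a ∈ H, ∀ b ∈ H, γ < a → γ < b → ∀ η < ξ, (a ∈ A η ↔ b ∈ A η) := by
      intro a ha b hb h₁ h₂ η hη
      have := hγ ⟨η, hη⟩
      rcases hβ η hη with h | h
      · exact iff_of_true (h a ha (this.trans h₁)) (h b hb (this.trans h₂))
      · exact iff_of_false (h a ha (this.trans h₁)) (h b hb (this.trans h₂))
    rcases mono with m | m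
    · by_cases h : ∃ a ∈ H, γ < a ∧ a ∈ A ξ
      · obtain ⟨a, ha, h₁, h₂⟩ := h
        exact ⟨a, Or.inl fun b hb hab => m a ha b hb hab ξ (agree a ha b hb h₁ (h₁.trans hab)) h₂⟩
      · exact ⟨γ, Or.inr fun a ha h₁ h₂ => h ⟨a, ha, h₁, h₂⟩⟩
    · by_cases h : ∃ a ∈ H, γ < a ∧ a ∉ A ξ
      · obtain ⟨a, ha, h₁, h₂⟩ := h
        exact ⟨a, Or.inr fun b hb hab h₃ =>
          h₂ (m a ha b hb hab ξ (agree b hb a ha (h₁.trans hab) h₁) h₃)⟩
      · exact ⟨γ, Or.inl fun a ha h₁ => by_contra fun h₂ => h ⟨a, ha, h₁, h₂⟩⟩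

theorem ev_const {J : Type u} (hJ : #J ≤ #X) (A : J → Set X) : ∃ H : Set X,
    (∀ x, ∃ α ∈ H, x < α) ∧
    ∀ j, ∃ β, (∀ α ∈ H, β < α → α ∈ A j) ∨ (∀ α ∈ H, β < α → α ∉ A j) := by
  obtain ⟨e⟩ := hJ
  obtain ⟨H, h₁, h₂⟩ := ev_const' fun ξ => {α | ∃ j, e j = ξ ∧ α ∈ A j}
  refine ⟨H, h₁, fun j => ?_⟩
  simpa using h₂ (e j)

end WC

end Pool.Agent.MP_be203f_lc
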