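import Pool.Agent.MP_c6cf52_lc.Omega1
import Pool.Agent.MP_be203f_lc.Defs
import Pool.Agent.MP_be203f_lc.Ground

namespace Pool.Agent.MP_be203f_lc

open Pool.Agent.MP_c6cf52_lc Pool.Agent.MP_c6cf52_lc.Name Pool.Agent.MP_c6cf52_lc.Gen Set Cardinal

universe u

variable {P : Type u} [Preorder P] [OrderTop P] {g : Gen P}

theorem isOrdinal_of {a : g.M} (h : IsOrd g.E a) : a.1.IsOrdinal := by
  constructor
  · intro y hy z hz
    obtain ⟨y, rfl⟩ := trans hy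
    obtain ⟨z, rfl⟩ := trans hz
    exact h.1 _ _ hy hz
  · intro y z w h₁ h₂ h₃
    obtain ⟨w, rfl⟩ := trans h₃
    obtain ⟨z, rfl⟩ := trans h₂
    obtain ⟨y, rfl⟩ := trans h₁
    exact E_trans h h₃ h₁ h₂

theorem ord_tri {a b : g.M} (ha : IsOrd g.E a) (hb : IsOrd g.E b) :
    g.E a b ∨ a = b ∨ g.E b a := by
  rcases (isOrdinal_of ha).mem_trichotomous (isOrdinal_of hb) with h | h | h
  exacts [Or.inl h, Or.inr (Or.inl (Subtype.ext h)), Or.inr (Or.inr h)]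

theorem app_iff_fmem {ρ a b : Name P} (hρ : ρ ∈ g.N) (ha : a ∈ g.N) (hb : b ∈ g.N) :
    App g.E (g.v ρ) (g.v a) (g.v b) ↔ ∃ q ∈ g.G, FMem (pairN a b) ρ q := by
  rw [app_iff, ← v_pairN ha hb, v_mem_iff (pairN_mem_iff.2 ⟨ha, hb⟩) hρ]

theorem exists_rel (A B : g.M) {Q : g.M → g.M → Prop}
    (hQ : g.Tm (fun z : g.M × g.M => Q z.1 z.2)) :
    ∃ R, ∀ a b, g.E a A → g.E b B → (App g.E R a b ↔ Q a b) := by
  obtain ⟨C, hC⟩ := exists_pr_bound A B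
  obtain ⟨R, hR⟩ := tm_sep (Q := fun p => ∃ a b, p = pr a b ∧ Q a b) (by fun_prop) C
  refine ⟨R, fun a b ha hb => ?_⟩
  rw [app_iff, hR]
  constructor
  · rintro ⟨-, a', b', e, h⟩
    obtain ⟨rfl, rfl⟩ := pr_inj.1 e
    exact h
  · exact fun h => ⟨hC a b ha hb, a, b, rfl, h⟩

theorem exists_prod (A B : g.M) : ∃ C, ∀ p, g.E p C ↔ ∃ a b, g.E a A ∧ g.E b B ∧ p = pr a b := by
  obtain ⟨C, hC⟩ := exists_pr_bound A B
  obtain ⟨R, hR⟩ := tm_sep (Q := fun p => ∃ a b, g.E a A ∧ g.E b B ∧ p = pr a b) (by fun_prop) C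
  exact ⟨R, fun p => (hR p).trans ⟨fun h => h.2, fun ⟨a, b, ha, hb, e⟩ =>
    ⟨e ▸ hC a b ha hb, a, b, ha, hb, e⟩⟩⟩

theorem inj_of_rel {D a : g.M} {Q : g.M → g.M → Prop}
    (hQ : g.Tm (fun z : g.M × g.M => Q z.1 z.2)) (tot : ∀ W, g.E W D → ∃ ξ, g.E ξ a ∧ Q W ξ)
    (uniq : ∀ W W' ξ, g.E W D → g.E W' D → Q W ξ → Q W' ξ → W = W') :
    ∃ F, IsInj g.E F D a := by
  obtain ⟨φ, hφ, h⟩ := tm_choice (Γ := g.Elt D) (Q := fun W ξ => g.E ξ a ∧ Q W.1 ξ)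
    (by fun_prop) fun W => tot W.1 W.2
  obtain ⟨F, h₁, h₂⟩ := exists_graph Df.true hφ
  refine ⟨F, ⟨fun p hp => ?_, fun W hW => ⟨φ ⟨W, hW⟩, (h₂ _ _).2 ⟨⟨W, hW⟩, trivial, rfl, rfl⟩,
    fun b hb => ?_⟩⟩, fun W W' b hb hb' => ?_⟩
  · obtain ⟨W, -, rfl⟩ := h₁ p hp
    exact ⟨W.1, φ W, W.2, (h W).1, isPair_pr _ _⟩
  · obtain ⟨⟨W', hW'⟩, -, rfl, rfl⟩ := (h₂ _ _).1 hb
    rfl
  · obtain ⟨V, -, rfl, rfl⟩ := (h₂ _ _).1 hb
    obtain ⟨V', -, rfl, e⟩ := (h₂ _ _).1 hb'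
    exact uniq _ _ (φ V) V.2 V'.2 (h V).2 ((show φ V = φ V' from e) ▸ (h V').2)

theorem isOmega_om : IsOmega g.E g.om := by
  refine ⟨isOrd_setN natWf natTri g.omega_mem fun _ _ _ _ => trivial, ⟨_, nat_om 0⟩,
    fun x hx => ?_, fun x hx ⟨y, hy⟩ => ?_⟩
  · obtain ⟨n, rfl⟩ := E_om.1 hx
    exact ⟨_, nat_om (n + 1), nat_lt.2 (Nat.lt_succ_self n)⟩
  · obtain ⟨n, rfl⟩ := E_om.1 hx
    obtain ⟨m, hm, -⟩ := E_nat.1 hy
    refine ⟨g.nat (n - 1), nat_lt.2 (by omega), fun z hz => ?_⟩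
    obtain ⟨k, hk, rfl⟩ := E_nat.1 hz
    rw [nat_lt]
    omega

variable {X : Type u} [LinearOrder X] [WC X]

theorem wfX : WellFounded (fun a b : X => a < b) := wellFounded_lt

omit [WC X] in
theorem triX (a b : X) : a < b ∨ a = b ∨ b < a := lt_trichotomy a b

noncomputable def o (x : X) : Name P := ordN wfX x

noncomputable def sN (s : Set X) : Name P := setN wfX s

theorem o_eq (x : X) : (o x : Name P) = sN (Iio x) := ordN_eq wfX x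

theorem E_sN {s : Set X} (h : sN s ∈ g.N) {x : g.M} :
    g.E x (g.v (sN s)) ↔ ∃ y ∈ s, o y ∈ g.N ∧ g.v (o y) = x := E_setN wfX h

theorem o_lt {a b : X} (ha : o a ∈ g.N) (hb : o b ∈ g.N) :
    g.E (g.v (o a)) (g.v (o b)) ↔ a < b := ord_lt_iff wfX triX ha hb

theorem o_inj {a b : X} (ha : o a ∈ g.N) (hb : o b ∈ g.N) (h : g.v (o a) = g.v (o b)) : a = b :=
  ord_inj wfX triX ha hb h

theorem o_mem_sN {s : Set X} {a : X} (ha : o a ∈ g.N) (hs : sN s ∈ g.N) :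
    g.E (g.v (o a)) (g.v (sN s)) ↔ a ∈ s := ord_mem_setN_iff wfX triX ha hs

variable (X) in
/-- The name of the cardinal. -/
noncomputable abbrev kN : Name P := sN (univ : Set X)

theorem isOrd_k (h : kN X ∈ g.N) : IsOrd g.E (g.v (kN X)) :=
  isOrd_setN wfX triX h fun _ _ _ _ => trivial

theorem E_k (h : kN X ∈ g.N) {x : g.M} :
    g.E x (g.v (kN X)) ↔ ∃ y : X, o y ∈ g.N ∧ g.v (o y) = x := by
  simp [E_sN h]

theorem o_k (h : kN X ∈ g.N) {a : X} (ha : o a ∈ g.N) : g.E (g.v (o a)) (g.v (kN X)) :=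
  (E_k h).2 ⟨a, ha, rfl⟩

theorem exists_pairing (hk : kN X ∈ g.N) : ∃ π : g.M,
    (∀ a b, g.E a (g.v (kN X)) → g.E b (g.v (kN X)) →
      ∃ c, g.E c (g.v (kN X)) ∧ App g.E π (pr a b) c) ∧
    ∀ p p' c, App g.E π p c → App g.E π p' c → p = p' := by
  have : #(X × X) ≤ #X := by
    rw [mk_prod, lift_id, mul_eq_self WC.unc.le]
  obtain ⟨e⟩ := this
  let πN : Name P := relN (fun z : X × X => pairN (o z.1) (o z.2)) (fun z => o (e z)) fun _ => ⊤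
  have := dens (g := g) (Ψ := fun M E w => ∃ π, (∀ a b, E a (w 0) → E b (w 0) →
      ∃ c, E c (w 0) ∧ ∃ p, IsPair E p a b ∧ App E π p c) ∧
      ∀ p p' c, App E π p c → App E π p' c → p = p') (by
        repeat' first
          | exact UDef.mem _ _ | exact UDef.app _ _ _ | exact UDef.isPair _ _ _
          | exact UDef.eq _ _ | apply UDef.and | apply UDef.imp | apply UDef.all | apply UDef.ex)
    (l1 hk) fun p _ => ⟨p, le_rfl, {πN}, countable_singleton _, fun g' _ hC hl =>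
      ⟨g'.v πN, fun a b ha hb => ?_, fun p p' c h h' => ?_⟩⟩
  · obtain ⟨π, h₁, h₂⟩ := this
    refine ⟨π, fun a b ha hb => ?_, h₂⟩
    obtain ⟨c, hc, p, hp, h⟩ := h₁ a b ha hb
    exact ⟨c, hc, isPair_iff.1 hp ▸ h⟩
  · have hk' : kN X ∈ g'.N := hl _ (by simp)
    obtain ⟨x, hx, rfl⟩ := (E_k hk').1 ha
    obtain ⟨y, hy, rfl⟩ := (E_k hk').1 hb
    refine dens (Ψ := fun M E w => ∃ c, E c (w 0) ∧ ∃ p, IsPair E p (w 1) (w 2) ∧ App E (w 3) p c)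
      (by
        repeat' first
          | exact UDef.mem _ _ | exact UDef.app _ _ _ | exact UDef.isPair _ _ _
          | apply UDef.and | apply UDef.ex)
      (l4 hk' hx hy (hC rfl)) fun q _ => ⟨q, le_rfl, {o (e (x, y))}, countable_singleton _,
        fun g₂ _ hC₂ hl₂ => ⟨_, o_k (hl₂ _ (by simp)) (hC₂ rfl), _, isPair_pr _ _, ?_⟩⟩
    have b₁ : o x ∈ g₂.N := hl₂ _ (by simp)
    have b₂ : o y ∈ g₂.N := hl₂ _ (by simp)
    exact (app_relN (hl₂ πN (by simp))).2 ⟨(x, y), g₂.top, pairN_mem_iff.2 ⟨b₁, b₂⟩, hC₂ rfl,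
      (v_pairN b₁ b₂).symm, rfl⟩
  · obtain ⟨z, -, -, a₁, rfl, rfl⟩ := (app_relN (hC rfl)).1 h
    obtain ⟨z', -, -, a₂, rfl, e'⟩ := (app_relN (hC rfl)).1 h'
    rw [e.injective (o_inj a₁ a₂ e')]

variable [Countable P]

omit [Preorder P] [OrderTop P] in
theorem mk_P : #P < #X := (mk_le_aleph0 (α := P)).trans_lt WC.unc

theorem reg_fam (hk : kN X ∈ g.N) {ι : Type u} (hι : #ι < #X) {A : ι → Name P}
    (hA : fam A ∈ g.N) (R : g.M) : ∃ γ, g.E γ (g.v (kN X)) ∧ ∀ i, g.E i (g.v (fam A)) →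
      (∃ β, g.E β (g.v (kN X)) ∧ App g.E R i β) → ∃ β, g.E β γ ∧ App g.E R i β := by
  obtain ⟨ρ, hρ, rfl⟩ := exists_v R
  have : Nonempty X := (mk_ne_zero_iff.1 (WC.unc.trans' aleph0_pos).ne')
  have : ∀ z : ι × P, ∃ b : X, (∃ b : X, FMem (pairN (A z.1) (o b)) ρ z.2) →
      FMem (pairN (A z.1) (o b)) ρ z.2 := fun z => by
    by_cases h : ∃ b : X, FMem (pairN (A z.1) (o b)) ρ z.2
    · exact ⟨h.choose, fun _ => h.choose_spec⟩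
    · exact ⟨Classical.arbitrary X, fun h' => absurd h' h⟩
  choose b hb using this
  obtain ⟨γ, hγ⟩ := bdd (by
    rw [mk_prod, lift_id, lift_id]
    exact mul_lt_of_lt WC.unc.le hι mk_P) b
  refine dens (Ψ := fun M E w => ∃ γ, E γ (w 0) ∧ ∀ i, E i (w 1) →
      (∃ β, E β (w 0) ∧ App E (w 2) i β) → ∃ β, E β γ ∧ App E (w 2) i β) (by
        repeat' first
          | exact UDef.mem _ _ | exact UDef.app _ _ _
          | apply UDef.and | apply UDef.imp | apply UDef.all | apply UDef.ex)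
    (l3 hk hA hρ) fun p _ => ⟨p, le_rfl, {o γ}, countable_singleton _, fun g' _ hC hl =>
      ⟨_, o_k (hl _ (by simp)) (hC rfl), fun i hi ⟨β, h₁, h₂⟩ => ?_⟩⟩
  have hρ' : ρ ∈ g'.N := hl _ (by simp)
  obtain ⟨j, hj, rfl⟩ := (E_fam (hl _ (by simp))).1 hi
  obtain ⟨y, hy, rfl⟩ := (E_k (hl _ (by simp))).1 h₁
  obtain ⟨q, hq, h₃⟩ := (app_iff_fmem hρ' hj hy).1 h₂
  refine dens (Ψ := fun M E w => ∃ β, E β (w 0) ∧ App E (w 1) (w 2) β)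
    (UDef.ex ((UDef.mem _ _).and (UDef.app _ _ _))) (l3 (hC rfl) hρ' hj) fun r hr => ?_
  obtain ⟨s, -, s₁, s₂⟩ := g'.dir hr hq
  exact ⟨s, s₁, {o (b (j, q))}, countable_singleton _, fun g₂ hs hC₂ hl₂ =>
    ⟨_, (o_lt (hC₂ rfl) (hl₂ _ (by simp))).2 (hγ _),
      (app_iff_fmem (hl₂ ρ (by simp)) (hl₂ (A j) (by simp)) (hC₂ rfl)).2
        ⟨q, g₂.up hs s₂, hb (j, q) ⟨y, h₃⟩⟩⟩⟩

theorem reg_aux (hk : kN X ∈ g.N) {a : g.M} (ha : g.E a (g.v (kN X)) ∨ a = g.om)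
    {Q : g.M → g.M → Prop} (hQ : g.Tm (fun z : g.M × g.M => Q z.1 z.2)) :
    ∃ γ, g.E γ (g.v (kN X)) ∧ ∀ i, g.E i a →
      (∃ β, g.E β (g.v (kN X)) ∧ Q i β) → ∃ β, g.E β γ ∧ Q i β := by
  obtain ⟨R, hR⟩ := exists_rel a (g.v (kN X)) hQ
  have : ∃ γ, g.E γ (g.v (kN X)) ∧ ∀ i, g.E i a →
      (∃ β, g.E β (g.v (kN X)) ∧ App g.E R i β) → ∃ β, g.E β γ ∧ App g.E R i β := by
    rcases ha with ha | rfl
    · obtain ⟨y, hy, rfl⟩ := (E_k hk).1 ha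
      rw [o_eq] at hy ⊢
      exact reg_fam hk (WC.small y) hy R
    · exact reg_fam hk (ι := (univ : Set (ULift.{u} ℕ))) (by simpa using WC.unc) g.omega_mem R
  obtain ⟨γ, h₁, h₂⟩ := this
  refine ⟨γ, h₁, fun i hi ⟨β, h₃, h₄⟩ => ?_⟩
  obtain ⟨β', h₅, h₆⟩ := h₂ i hi ⟨β, h₃, (hR _ _ hi h₃).2 h₄⟩
  exact ⟨β', h₅, (hR _ _ hi ((isOrd_k hk).1 _ _ h₁ h₅)).1 h₆⟩

theorem om_mem_k (hk : kN X ∈ g.N) : g.E g.om (g.v (kN X)) := by
  obtain ⟨γ, h₁, h₂⟩ := reg_aux hk (Or.inr rfl) (Q := fun i β => β = i) (by fun_prop)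
  have : ¬ g.E γ g.om := fun h => by
    obtain ⟨β, h₃, rfl⟩ := h₂ γ h ⟨γ, h₁, rfl⟩
    exact E_irrefl _ h₃
  rcases ord_tri isOmega_om.1 (isOrd_k hk) with h | h | h
  · exact h
  · exact absurd (h ▸ h₁) this
  · exact absurd (isOmega_om.1.1 _ _ h h₁) this

theorem isCard_k (hk : kN X ∈ g.N) : IsCard g.E (g.v (kN X)) := by
  refine ⟨isOrd_k hk, fun a ha ⟨f, hf⟩ => ?_⟩
  obtain ⟨γ, h₁, h₂⟩ := reg_aux hk (Or.inl ha) (Q := fun i β => App g.E f β i) (by fun_prop)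
  obtain ⟨i, hi, h₃⟩ := fun_ex hf.1 h₁
  obtain ⟨β, h₄, h₅⟩ := h₂ i hi ⟨γ, h₁, h₃⟩
  exact E_irrefl _ (hf.2 _ _ _ h₅ h₃ ▸ h₄)

theorem wc_fam (hk : kN X ∈ g.N) {ι : Type u} (hι : #ι ≤ #X) {A : ι → Name P}
    (hA : fam A ∈ g.N) (R : g.M) : ∃ H, (∀ α, g.E α H → g.E α (g.v (kN X))) ∧
      (∀ x, g.E x (g.v (kN X)) → ∃ α, g.E α H ∧ g.E x α) ∧
      ∀ i, g.E i (g.v (fam A)) → ∃ β, g.E β (g.v (kN X)) ∧
        ((∀ α, g.E α H → g.E β α → App g.E R i α) ∨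
          ∀ α, g.E α H → g.E β α → ¬ App g.E R i α) := by
  obtain ⟨ρ, hρ, rfl⟩ := exists_v R
  let S : ι × P × ULift.{u} Bool → Set X := fun z => {α | match z.2.2.down with
    | true => FMem (pairN (A z.1) (o α)) ρ z.2.1
    | false => ∀ r ≤ z.2.1, ¬ FMem (pairN (A z.1) (o α)) ρ r}
  obtain ⟨H, hH, hS⟩ := ev_const (by
    rw [mk_prod, lift_id, lift_id]
    exact mul_le_of_le WC.unc.le hι (mk_le_aleph0.trans WC.unc.le)) S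
  refine dens (Ψ := fun M E w => ∃ H, (∀ α, E α H → E α (w 0)) ∧
      (∀ x, E x (w 0) → ∃ α, E α H ∧ E x α) ∧
      ∀ i, E i (w 1) → ∃ β, E β (w 0) ∧
        ((∀ α, E α H → E β α → App E (w 2) i α) ∨
          ∀ α, E α H → E β α → ¬ App E (w 2) i α)) (by
        repeat' first
          | exact UDef.mem _ _ | exact UDef.app _ _ _ | apply UDef.or | apply UDef.not
          | apply UDef.and | apply UDef.imp | apply UDef.all | apply UDef.ex)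
    (l3 hk hA hρ) fun p _ => ⟨p, le_rfl, {sN H}, countable_singleton _, fun g' _ hC hl =>
      ⟨g'.v (sN H), fun α hα => ?_, fun x hx => ?_, fun i hi => ?_⟩⟩
  · obtain ⟨y, -, hy, rfl⟩ := (E_sN (hC rfl)).1 hα
    exact o_k (hl _ (by simp)) hy
  · obtain ⟨y, hy, rfl⟩ := (E_k (hl _ (by simp))).1 hx
    obtain ⟨α, h₁, h₂⟩ := hH y
    exact dens (Ψ := fun M E w => ∃ α, E α (w 0) ∧ E (w 1) α)
      (UDef.ex ((UDef.mem _ _).and (UDef.mem _ _))) (l2 (hC rfl) hy) fun r _ =>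
      ⟨r, le_rfl, {o α}, countable_singleton _, fun g₂ _ hC₂ hl₂ =>
        ⟨_, (o_mem_sN (hC₂ rfl) (hl₂ _ (by simp))).2 h₁,
          (o_lt (hl₂ _ (by simp)) (hC₂ rfl)).2 h₂⟩⟩
  · obtain ⟨j, hj, rfl⟩ := (E_fam (hl _ (by simp))).1 hi
    refine dens (Ψ := fun M E w => ∃ β, E β (w 0) ∧
        ((∀ α, E α (w 1) → E β α → App E (w 2) (w 3) α) ∨
          ∀ α, E α (w 1) → E β α → ¬ App E (w 2) (w 3) α)) (by
        repeat' first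
          | exact UDef.mem _ _ | exact UDef.app _ _ _ | apply UDef.or | apply UDef.not
          | apply UDef.and | apply UDef.imp | apply UDef.all | apply UDef.ex)
      (l4 (hl (kN X) (by simp)) (hC rfl) (hl ρ (by simp)) hj) fun r _ => ?_
    choose β hβ using fun z : P × ULift.{u} Bool => hS (j, z)
    obtain ⟨γ, hγ⟩ := bdd (mk_le_aleph0.trans_lt WC.unc) β
    obtain ⟨α₀, a₁, a₂⟩ := hH γ
    have : ∃ q ≤ r, ∃ s, α₀ ∈ S (j, q, s) := by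
      by_cases h : ∀ s ≤ r, ¬ FMem (pairN (A j) (o α₀)) ρ s
      · exact ⟨r, le_rfl, ⟨false⟩, h⟩
      · push Not at h
        obtain ⟨s, hs, h⟩ := h
        exact ⟨s, hs, ⟨true⟩, h⟩
    obtain ⟨q, hq, s, hs⟩ := this
    have h₁ : ∀ α ∈ H, β (q, s) < α → α ∈ S (j, q, s) :=
      (hβ (q, s)).resolve_right fun h => h α₀ a₁ ((hγ _).trans a₂) hs
    refine ⟨q, hq, {o (β (q, s))}, countable_singleton _, fun g₂ hq₂ hC₂ hl₂ =>
      ⟨_, o_k (hl₂ _ (by simp)) (hC₂ rfl), ?_⟩⟩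
    have b₁ : sN H ∈ g₂.N := hl₂ _ (by simp)
    have b₂ : ρ ∈ g₂.N := hl₂ _ (by simp)
    have b₃ : A j ∈ g₂.N := hl₂ _ (by simp)
    obtain ⟨_ | _⟩ := s
    · refine Or.inr fun α hα hβα h => ?_
      obtain ⟨y, y₁, y₂, rfl⟩ := (E_sN b₁).1 hα
      obtain ⟨t, ht, h⟩ := (app_iff_fmem b₂ b₃ y₂).1 h
      obtain ⟨t', -, t₁, t₂⟩ := g₂.dir ht hq₂
      exact h₁ y y₁ ((o_lt (hC₂ rfl) y₂).1 hβα) t' t₂ (h.mono t₁)
    · refine Or.inl fun α hα hβα => ?_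
      obtain ⟨y, y₁, y₂, rfl⟩ := (E_sN b₁).1 hα
      exact (app_iff_fmem b₂ b₃ y₂).2 ⟨q, hq₂, h₁ y y₁ ((o_lt (hC₂ rfl) y₂).1 hβα)⟩

/-- Eventual decision along `H`. -/
def Dec (g : Gen P) (k H : g.M) (Q : g.M → Prop) : Prop :=
  ∃ β, g.E β k ∧ ((∀ α, g.E α H → g.E β α → Q α) ∨ ∀ α, g.E α H → g.E β α → ¬ Q α)

theorem wc_two (hk : kN X ∈ g.N) {Q₁ Q₂ : g.M → g.M → Prop}
    (h₁ : g.Tm (fun z : g.M × g.M => Q₁ z.1 z.2)) (h₂ : g.Tm (fun z : g.M × g.M => Q₂ z.1 z.2)) :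
    ∃ H, (∀ α, g.E α H → g.E α (g.v (kN X))) ∧
      (∀ x, g.E x (g.v (kN X)) → ∃ α, g.E α H ∧ g.E x α) ∧
      ∀ ξ, g.E ξ (g.v (kN X)) →
        Dec g (g.v (kN X)) H (Q₁ ξ) ∧ Dec g (g.v (kN X)) H (Q₂ ξ) := by
  let A : X × ULift.{u} ℕ → Name P := fun z => pairN (o z.1) (ordN natWf z.2)
  have hι : #(X × ULift.{u} ℕ) ≤ #X := by
    rw [mk_prod, lift_id, lift_id]
    exact mul_le_of_le WC.unc.le le_rfl (mk_le_aleph0.trans WC.unc.le)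
  have key : ∀ R : g.M, ∃ H, (∀ α, g.E α H → g.E α (g.v (kN X))) ∧
      (∀ x, g.E x (g.v (kN X)) → ∃ α, g.E α H ∧ g.E x α) ∧
      ∀ i, (∃ a b, g.E a (g.v (kN X)) ∧ g.E b g.om ∧ IsPair g.E i a b) → ∃ β, g.E β (g.v (kN X)) ∧
        ((∀ α, g.E α H → g.E β α → App g.E R i α) ∨
          ∀ α, g.E α H → g.E β α → ¬ App g.E R i α) := by
    intro R
    obtain ⟨ρ, hρ, rfl⟩ := exists_v R
    refine dens (Ψ := fun M E w => ∃ H, (∀ α, E α H → E α (w 0)) ∧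
      (∀ x, E x (w 0) → ∃ α, E α H ∧ E x α) ∧
      ∀ i, (∃ a b, E a (w 0) ∧ E b (w 1) ∧ IsPair E i a b) → ∃ β, E β (w 0) ∧
        ((∀ α, E α H → E β α → App E (w 2) i α) ∨
          ∀ α, E α H → E β α → ¬ App E (w 2) i α)) (by
        repeat' first
          | exact UDef.mem _ _ | exact UDef.app _ _ _ | exact UDef.isPair _ _ _
          | apply UDef.or | apply UDef.not
          | apply UDef.and | apply UDef.imp | apply UDef.all | apply UDef.ex)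
      (l3 hk g.omega_mem hρ) fun p _ => ⟨p, le_rfl, {fam A}, countable_singleton _,
        fun g' _ hC hl => ?_⟩
    have hk' : kN X ∈ g'.N := hl _ (by simp)
    obtain ⟨H, a₁, a₂, a₃⟩ := wc_fam hk' hι (hC rfl) (g'.v ρ)
    refine ⟨H, a₁, a₂, fun i ⟨a, b, ha, hb, e⟩ => a₃ i ?_⟩
    obtain ⟨x, hx, rfl⟩ := (E_k hk').1 ha
    obtain ⟨n, rfl⟩ := (E_om (g := g')).1 hb
    exact (E_fam (hC rfl)).2 ⟨(x, ⟨n⟩), pairN_mem_iff.2 ⟨hx, nat_mem _⟩,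
      (v_pairN hx (nat_mem _)).trans (isPair_iff.1 e).symm⟩
  obtain ⟨D, hD⟩ := exists_pr_bound (g.v (kN X)) g.om
  obtain ⟨R, hR⟩ := exists_rel D (g.v (kN X)) (Q := fun i α =>
    (∃ ξ, i = pr ξ (g.nat 0) ∧ Q₁ ξ α) ∨ ∃ ξ, i = pr ξ (g.nat 1) ∧ Q₂ ξ α) (by fun_prop)
  obtain ⟨H, a₁, a₂, a₃⟩ := key R
  refine ⟨H, a₁, a₂, fun ξ hξ => ⟨?_, ?_⟩⟩
  · have e : ∀ α, g.E α H → (App g.E R (pr ξ (g.nat 0)) α ↔ Q₁ ξ α) := fun α hα => by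
      rw [hR _ _ (hD _ _ hξ (nat_om 0)) (a₁ α hα)]
      simp [pr_inj, nat_inj.eq_iff]
    obtain ⟨β, hβ, h⟩ := a₃ _ ⟨ξ, _, hξ, nat_om 0, isPair_pr _ _⟩
    exact ⟨β, hβ, h.imp (fun h α hα h' => (e α hα).1 (h α hα h'))
      fun h α hα h' h'' => h α hα h' ((e α hα).2 h'')⟩
  · have e : ∀ α, g.E α H → (App g.E R (pr ξ (g.nat 1)) α ↔ Q₂ ξ α) := fun α hα => by
      rw [hR _ _ (hD _ _ hξ (nat_om 1)) (a₁ α hα)]
      simp [pr_inj, nat_inj.eq_iff]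
    obtain ⟨β, hβ, h⟩ := a₃ _ ⟨ξ, _, hξ, nat_om 1, isPair_pr _ _⟩
    exact ⟨β, hβ, h.imp (fun h α hα h' => (e α hα).1 (h α hα h'))
      fun h α hα h' h'' => h α hα h' ((e α hα).2 h'')⟩

end Pool.Agent.MP_be203f_lc
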