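import Pool.Agent.MP_be203f_lc.Force

namespace Pool.Agent.MP_be203f_lc

open Pool.Agent.MP_c6cf52_lc Pool.Agent.MP_c6cf52_lc.Name Pool.Agent.MP_c6cf52_lc.Gen Set Cardinal

universe u

/-- Conditions for adding a Cohen real. -/
structure Co : Type u where
  n : ℕ
  S : Finset ℕ

instance : Preorder Co.{u} where
  le p q := q.n ≤ p.n ∧ ∀ i < q.n, (i ∈ p.S ↔ i ∈ q.S)
  le_refl p := ⟨le_rfl, fun _ _ => Iff.rfl⟩
  le_trans p q r h₁ h₂ := ⟨h₂.1.trans h₁.1, fun i hi => (h₁.2 i (hi.trans_le h₂.1)).trans (h₂.2 i hi)⟩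

instance : OrderTop Co.{u} where
  top := ⟨0, ∅⟩
  le_top _ := ⟨Nat.zero_le _, fun _ h => absurd h (Nat.not_lt_zero _)⟩

instance : Countable Co.{u} :=
  Function.Injective.countable (f := fun p : Co.{u} => (p.n, p.S)) fun ⟨_, _⟩ ⟨_, _⟩ h => by
    simpa using h

variable (X : Type u) in
/-- The points of the space. -/
abbrev Pt : Type u := Bool × Ultrafilter X

variable (X : Type u) in
/-- Indices of basic open sets. -/
structure Ix : Type u where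
  i : Bool
  A : Set X
  φ : ℕ → Set X
  fin : ∀ p : Ultrafilter X, {n | φ n ∈ p}.Finite

variable {X : Type u}

/-- The condition puts the point into the basic open set. -/
def In (j : Ix X) (z : Pt X) (q : Co.{u}) : Prop :=
  z.1 = j.i ∧ j.A ∈ z.2 ∧ ∀ n, j.φ n ∈ z.2 → n < q.n ∧ (n ∈ q.S ↔ j.i = true)

theorem In.mono {j : Ix X} {z : Pt X} {p q : Co.{u}} (h : In j z q) (hp : p ≤ q) : In j z p :=
  ⟨h.1, h.2.1, fun n hn => ⟨(h.2.2 n hn).1.trans_le hp.1,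
    (hp.2 n (h.2.2 n hn).1).trans (h.2.2 n hn).2⟩⟩

def triv (i : Bool) (A : Set X) : Ix X := ⟨i, A, fun _ => ∅, fun p => by simp⟩

theorem in_triv {i : Bool} {A : Set X} {z : Pt X} {q : Co.{u}} :
    In (triv i A) z q ↔ z.1 = i ∧ A ∈ z.2 := by
  simp [In, triv]

def meet (j j' : Ix X) : Ix X :=
  ⟨j.i, j.A ∩ j'.A, fun n => j.φ n ∪ j'.φ n, fun p => ((j.fin p).union (j'.fin p)).subset
    fun _ hn => Ultrafilter.union_mem_iff.1 hn⟩

theorem in_meet {j j' : Ix X} (e : j.i = j'.i) {z : Pt X} {q : Co.{u}} :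
    In (meet j j') z q ↔ In j z q ∧ In j' z q := by
  constructor
  · rintro ⟨h₁, h₂, h₃⟩
    exact ⟨⟨h₁, Filter.mem_of_superset h₂ inter_subset_left, fun n hn =>
      h₃ n (Ultrafilter.union_mem_iff.2 (Or.inl hn))⟩, h₁.trans e,
      Filter.mem_of_superset h₂ inter_subset_right, fun n hn =>
      e ▸ h₃ n (Ultrafilter.union_mem_iff.2 (Or.inr hn))⟩
  · rintro ⟨⟨h₁, h₂, h₃⟩, -, h₄, h₅⟩
    refine ⟨h₁, Filter.inter_mem h₂ h₄, fun n hn => ?_⟩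
    rcases Ultrafilter.union_mem_iff.1 hn with h | h
    · exact h₃ n h
    · exact (show (meet j j').i = j'.i from e) ▸ h₅ n h

theorem sep_box (nm : ¬ Meas X) (z z' : Pt X) : ∃ j j' : Ix X, In j z ⊤ ∧ In j' z' ⊤ ∧
    ∀ (x x' : X) (q : Co.{u}), In j (false, pure x) q → In j' (true, pure x) q →
      In j (false, pure x') q → In j' (true, pure x') q → x = x' := by
  obtain ⟨i, p⟩ := z
  obtain ⟨i', p'⟩ := z'
  cases i with
  | true =>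
    exact ⟨triv true univ, triv i' univ, in_triv.2 ⟨rfl, Filter.univ_mem⟩,
      in_triv.2 ⟨rfl, Filter.univ_mem⟩, fun x x' q h => by simpa using (in_triv.1 h).1⟩
  | false =>
  cases i' with
  | false =>
    exact ⟨triv false univ, triv false univ, in_triv.2 ⟨rfl, Filter.univ_mem⟩,
      in_triv.2 ⟨rfl, Filter.univ_mem⟩, fun x x' q _ h => by simpa using (in_triv.1 h).1⟩
  | true =>
  by_cases h : ∀ A ∈ p, A ∈ p'
  · obtain rfl : p' = p := Ultrafilter.eq_of_le h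
    by_cases h' : ∀ x, {x} ∉ p'
    · have : ¬ ∀ f : X → ℕ, ∃ n, f ⁻¹' {n} ∈ p' := fun H => nm ⟨p', h', H⟩
      push Not at this
      obtain ⟨f, hf⟩ := this
      have fin : ∀ r : Ultrafilter X, {n | f ⁻¹' {n} ∈ r}.Finite := fun r =>
        Set.Subsingleton.finite fun n hn m hm => by
          obtain ⟨x, h₁, h₂⟩ := Ultrafilter.nonempty_of_mem (Filter.inter_mem hn hm)
          exact h₁.symm.trans h₂
      refine ⟨⟨false, univ, fun n => f ⁻¹' {n}, fin⟩, ⟨true, univ, fun n => f ⁻¹' {n}, fin⟩,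
        ⟨rfl, Filter.univ_mem, fun n hn => absurd hn (hf n)⟩,
        ⟨rfl, Filter.univ_mem, fun n hn => absurd hn (hf n)⟩, fun x x' q h₁ h₂ => ?_⟩
      have a₁ := (h₁.2.2 (f x) (by simp)).2
      have a₂ := (h₂.2.2 (f x) (by simp)).2
      simp only [iff_true] at a₂
      simp [a₂] at a₁
    · push Not at h'
      obtain ⟨x₀, h₀⟩ := h'
      refine ⟨triv false {x₀}, triv true univ, in_triv.2 ⟨rfl, h₀⟩,
        in_triv.2 ⟨rfl, Filter.univ_mem⟩, fun x x' q h₁ _ h₂ _ => ?_⟩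
      have a₁ : x = x₀ := by simpa using (in_triv.1 h₁).2
      have a₂ : x' = x₀ := by simpa using (in_triv.1 h₂).2
      rw [a₁, a₂]
  · push Not at h
    obtain ⟨A, h₁, h₂⟩ := h
    refine ⟨triv false A, triv true Aᶜ, in_triv.2 ⟨rfl, h₁⟩,
      in_triv.2 ⟨rfl, Ultrafilter.compl_mem_iff_notMem.2 h₂⟩, fun x x' q h₃ h₄ => ?_⟩
    have a₁ : x ∈ A := by simpa using (in_triv.1 h₃).2
    have a₂ : x ∉ A := by simpa using (in_triv.1 h₄).2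
    exact absurd a₁ a₂

/-- The neighbourhood in the compact space attached to a forced membership. -/
def nb (j : Ix X) (p : Ultrafilter X) (t : Co.{u}) : Set X :=
  j.A ∩ {x | ∀ n < t.n, j.φ n ∉ p → x ∉ j.φ n}

theorem nb_mem {j : Ix X} {z : Pt X} {t : Co.{u}} (h : In j z t) : nb j z.2 t ∈ z.2 := by
  refine Filter.inter_mem h.2.1 ?_
  have : ∀ᶠ x in (z.2 : Filter X), ∀ n ∈ Iio t.n, j.φ n ∉ z.2 → x ∉ j.φ n := by
    rw [Filter.eventually_all_finite (finite_Iio _)]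
    intro n _
    by_cases hn : j.φ n ∈ z.2
    · exact Filter.Eventually.of_forall fun x h => absurd hn h
    · exact Filter.mem_of_superset (Ultrafilter.compl_mem_iff_notMem.2 hn) fun x hx _ => hx
  exact this

theorem extend_in {j : Ix X} {z : Pt X} {t : Co.{u}} (h : In j z t) {r : Ultrafilter X}
    (hr : nb j z.2 t ∈ r) : ∃ t' ≤ t, In j (z.1, r) t' := by
  classical
  obtain ⟨N, hN⟩ := (j.fin r).bddAbove
  refine ⟨⟨t.n + N + 1, (Finset.range (t.n + N + 1)).filter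
    fun n => if n < t.n then n ∈ t.S else j.i = true⟩, ⟨by dsimp only; omega, fun n hn => ?_⟩,
    h.1, Filter.mem_of_superset hr inter_subset_left, fun n hn => ?_⟩
  · simp only [Finset.mem_filter, Finset.mem_range, if_pos hn]
    exact and_iff_right (by omega)
  · have h₁ : n ≤ N := hN hn
    refine ⟨by dsimp only; omega, ?_⟩
    simp only [Finset.mem_filter, Finset.mem_range]
    rw [and_iff_right (by omega)]
    split_ifs with h₂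
    · refine (h.2.2 n ?_).2
      by_contra h₃
      obtain ⟨x, a₁, a₂⟩ := Ultrafilter.nonempty_of_mem (Filter.inter_mem hr hn)
      exact a₁.2 n h₂ h₃ a₂
    · rfl

theorem finite_subcover (A : Ultrafilter X → Set X) (h : ∀ p, A p ∈ p) :
    ∃ F : Finset (Ultrafilter X), ∀ r : Ultrafilter X, ∃ p ∈ F, A p ∈ r := by
  obtain ⟨F, -, hF⟩ := isCompact_univ.elim_nhds_subcover (fun p : Ultrafilter X => {r | A p ∈ r})
    fun p _ => (ultrafilter_isOpen_basic _).mem_nhds (h p)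
  exact ⟨F, fun r => by simpa using hF (mem_univ r)⟩

noncomputable def ptN (z : Pt X) : Name Co.{u} := ordN (woWf (Pt X)) z

variable (X) in
noncomputable def ZN : Name Co.{u} := setN (woWf (Pt X)) univ

noncomputable def bN (j : Ix X) : Name Co.{u} :=
  Name.mk {x : Pt X × Co.{u} // In j x.1 x.2} (fun x => ptN x.1.1) fun x => x.1.2

variable (X) in
noncomputable def BN : Name Co.{u} := fam (bN (X := X))

variable {g : Gen Co.{u}}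

theorem E_ZN (h : ZN X ∈ g.N) {x : g.M} :
    g.E x (g.v (ZN X)) ↔ ∃ z : Pt X, ptN z ∈ g.N ∧ g.v (ptN z) = x := by
  unfold ZN at h ⊢
  simp only [E_setN _ h, mem_univ, true_and]
  rfl

theorem pt_inj {z z' : Pt X} (h : ptN z ∈ g.N) (h' : ptN z' ∈ g.N)
    (e : g.v (ptN z) = g.v (ptN z')) : z = z' := ord_inj _ (woTri _) h h' e

theorem E_bN {j : Ix X} (h : bN j ∈ g.N) {x : g.M} : g.E x (g.v (bN j)) ↔
    ∃ z, ptN z ∈ g.N ∧ g.v (ptN z) = x ∧ ∃ q ∈ g.G, In j z q := by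
  rw [E_v h]
  exact ⟨fun ⟨⟨⟨z, q⟩, h₁⟩, h₂, h₃, h₄⟩ => ⟨z, h₃, h₄, q, h₂, h₁⟩,
    fun ⟨z, h₃, h₄, q, h₂, h₁⟩ => ⟨⟨⟨z, q⟩, h₁⟩, h₂, h₃, h₄⟩⟩

theorem pt_mem_bN {j : Ix X} {z : Pt X} (hz : ptN z ∈ g.N) (h : bN j ∈ g.N) :
    g.E (g.v (ptN z)) (g.v (bN j)) ↔ ∃ q ∈ g.G, In j z q := by
  rw [E_bN h]
  constructor
  · rintro ⟨z', h₁, e, h₂⟩
    exact pt_inj h₁ hz e ▸ h₂
  · exact fun h₂ => ⟨z, hz, rfl, h₂⟩

theorem E_BN (h : BN X ∈ g.N) {x : g.M} :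
    g.E x (g.v (BN X)) ↔ ∃ j : Ix X, bN j ∈ g.N ∧ g.v (bN j) = x := E_fam h

theorem udef_sub (i j : ℕ) : UDef.{u} (fun _ E w => Sub E (w i) (w j)) :=
  UDef.all ((UDef.mem _ _).imp (UDef.mem _ _))

theorem base_sub (hZ : ZN X ∈ g.N) (hB : BN X ∈ g.N) {b : g.M} (hb : g.E b (g.v (BN X))) :
    Sub g.E b (g.v (ZN X)) := by
  obtain ⟨j, hj, rfl⟩ := (E_BN hB).1 hb
  intro x hx
  obtain ⟨z, hz, rfl, -⟩ := (E_bN hj).1 hx
  exact (E_ZN hZ).2 ⟨z, hz, rfl⟩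

theorem base_cover (hZ : ZN X ∈ g.N) (hB : BN X ∈ g.N) :
    Covers g.E (g.v (BN X)) (g.v (ZN X)) := by
  intro x hx
  obtain ⟨z, hz, rfl⟩ := (E_ZN hZ).1 hx
  exact dens (Ψ := fun M E w => ∃ U, E U (w 0) ∧ E (w 1) U)
    (UDef.ex ((UDef.mem _ _).and (UDef.mem _ _))) (l2 hB hz) fun p _ =>
    ⟨p, le_rfl, {bN (triv z.1 univ)}, countable_singleton _, fun g' _ hC hl =>
      ⟨_, (E_BN (hl _ (by simp))).2 ⟨_, hC rfl, rfl⟩,
        (pt_mem_bN (hl _ (by simp)) (hC rfl)).2 ⟨⊤, g'.top, in_triv.2 ⟨rfl, Filter.univ_mem⟩⟩⟩⟩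

theorem base_inter (hB : BN X ∈ g.N) {b b' x : g.M} (hb : g.E b (g.v (BN X)))
    (hb' : g.E b' (g.v (BN X))) (hx : g.E x b) (hx' : g.E x b') :
    ∃ c, g.E c (g.v (BN X)) ∧ ∀ y, g.E y c ↔ g.E y b ∧ g.E y b' := by
  obtain ⟨j, hj, rfl⟩ := (E_BN hB).1 hb
  obtain ⟨j', hj', rfl⟩ := (E_BN hB).1 hb'
  obtain ⟨z, hz, rfl, q, -, h₁⟩ := (E_bN hj).1 hx
  obtain ⟨q', -, h₂⟩ := (pt_mem_bN hz hj').1 hx'
  have e : j.i = j'.i := h₁.1.symm.trans h₂.1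
  refine dens (Ψ := fun M E w => ∃ c, E c (w 0) ∧ ∀ y, E y c ↔ E y (w 1) ∧ E y (w 2))
    (UDef.ex ((UDef.mem _ _).and (UDef.all ((UDef.mem _ _).iff
      ((UDef.mem _ _).and (UDef.mem _ _)))))) (l3 hB hj hj') fun p _ =>
    ⟨p, le_rfl, {bN (meet j j')}, countable_singleton _, fun g' _ hC hl =>
      ⟨_, (E_BN (hl _ (by simp))).2 ⟨_, hC rfl, rfl⟩, fun y => ?_⟩⟩
  have b₁ : bN j ∈ g'.N := hl _ (by simp)
  have b₂ : bN j' ∈ g'.N := hl _ (by simp)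
  constructor
  · intro hy
    obtain ⟨z, hz, rfl, r, hr, h⟩ := (E_bN (hC rfl)).1 hy
    exact ⟨(pt_mem_bN hz b₁).2 ⟨r, hr, ((in_meet e).1 h).1⟩,
      (pt_mem_bN hz b₂).2 ⟨r, hr, ((in_meet e).1 h).2⟩⟩
  · rintro ⟨hy, hy'⟩
    obtain ⟨z, hz, rfl, r, hr, h⟩ := (E_bN b₁).1 hy
    obtain ⟨r', hr', h'⟩ := (pt_mem_bN hz b₂).1 hy'
    obtain ⟨s, hs, s₁, s₂⟩ := g'.dir hr hr'
    exact (pt_mem_bN hz (hC rfl)).2 ⟨s, hs, (in_meet e).2 ⟨h.mono s₁, h'.mono s₂⟩⟩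

/-- The space is Lindelöf in the extension. -/
theorem lindelof (hZ : ZN X ∈ g.N) (hB : BN X ∈ g.N) {C : g.M}
    (hC : ∀ x, g.E x (g.v (ZN X)) → ∃ W, g.E W C ∧ ∃ b, g.E b (g.v (BN X)) ∧ g.E x b ∧
      Sub g.E b W) :
    ∃ D, Sub g.E D C ∧ Covers g.E D (g.v (ZN X)) ∧ ∃ F, IsInj g.E F D g.om := by
  classical
  obtain ⟨γ, hγ, rfl⟩ := exists_v C
  obtain ⟨p₀, hp₀, H⟩ := transfer (Ψ := fun M E w => ∀ x, E x (w 0) → ∃ W, E W (w 1) ∧
    ∃ b, E b (w 2) ∧ E x b ∧ Sub E b W) (by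
      repeat' first
        | exact UDef.mem _ _ | exact udef_sub _ _
        | apply UDef.and | apply UDef.imp | apply UDef.all | apply UDef.ex) (l3 hZ hγ hB) hC
  have : ∀ w : Co.{u} × Pt X, ∃ (t : Co.{u}) (j : Ix X) (ω : Name Co.{u}), w.1 ≤ p₀ →
      t ≤ w.1 ∧ In j w.2 t ∧ ∀ g' : Gen Co.{u}, t ∈ g'.G → ω ∈ g'.N → γ ∈ g'.N → bN j ∈ g'.N →
        g'.E (g'.v ω) (g'.v γ) ∧ Sub g'.E (g'.v (bN j)) (g'.v ω) := by
    rintro ⟨s, z⟩
    by_cases hs : s ≤ p₀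
    · obtain ⟨g', hs', hN⟩ := exists_gen s {ZN X, γ, BN X, ptN z} (toFinite _).countable
      have b₁ : ZN X ∈ g'.N := hN (by simp)
      have b₂ : γ ∈ g'.N := hN (by simp)
      have b₃ : BN X ∈ g'.N := hN (by simp)
      have b₄ : ptN z ∈ g'.N := hN (by simp)
      obtain ⟨W, h₁, b, h₂, h₃, h₄⟩ := H g' (g'.up hs' hs) (l3 b₁ b₂ b₃) _
        ((E_ZN b₁).2 ⟨z, b₄, rfl⟩)
      obtain ⟨ω, hω, rfl⟩ := exists_v W
      obtain ⟨j, hj, rfl⟩ := (E_BN b₃).1 h₂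
      obtain ⟨q, hq, h₅⟩ := (pt_mem_bN b₄ hj).1 h₃
      obtain ⟨r, hr, H'⟩ := transfer (Ψ := fun M E w => E (w 0) (w 1) ∧ Sub E (w 2) (w 0))
        ((UDef.mem _ _).and (udef_sub _ _)) (l3 hω b₂ hj) ⟨h₁, h₄⟩
      obtain ⟨t₁, ht₁, c₁, c₂⟩ := g'.dir hq hr
      obtain ⟨t, -, c₃, c₄⟩ := g'.dir ht₁ hs'
      exact ⟨t, j, ω, fun _ => ⟨c₄, h₅.mono (c₃.trans c₁), fun g₂ ht d₁ d₂ d₃ =>
        H' g₂ (g₂.up ht (c₃.trans c₂)) (l3 d₁ d₂ d₃)⟩⟩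
    · exact ⟨⊤, triv true univ, emp, fun h => absurd h hs⟩
  choose t j ω hw using this
  have : ∀ y : Co.{u} × Bool, ∃ F : Finset (Ultrafilter X), y.1 ≤ p₀ →
      ∀ r : Ultrafilter X, ∃ p ∈ F, nb (j (y.1, y.2, p)) p (t (y.1, y.2, p)) ∈ r := by
    rintro ⟨s, i⟩
    by_cases hs : s ≤ p₀
    · obtain ⟨F, hF⟩ := finite_subcover (fun p => nb (j (s, i, p)) p (t (s, i, p)))
        fun p => nb_mem (hw (s, i, p) hs).2.1
      exact ⟨F, fun _ => hF⟩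
    · exact ⟨∅, fun h => absurd h hs⟩
  choose F hF using this
  let K : Set (Co.{u} × Pt X) := {w | w.1 ≤ p₀ ∧ w.2.2 ∈ F (w.1, w.2.1)}
  have hK : K.Countable := by
    refine (countable_iUnion fun y : Co.{u} × Bool =>
      ((F y).countable_toSet.image fun p => (y.1, y.2, p))).mono ?_
    rintro ⟨s, i, p⟩ h
    exact mem_iUnion.2 ⟨(s, i), p, h.2, rfl⟩
  have := hK.to_subtype
  obtain ⟨e, he⟩ := exists_injective_nat K
  let DN : Name Co.{u} := Name.mk K (fun w => ω w.1) fun w => t w.1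
  let eN : Name Co.{u} := relN (fun w : K => ω w.1) (fun w => ordN natWf ⟨e w⟩) fun _ => ⊤
  refine dens (Ψ := fun M E w => ∃ D, Sub E D (w 0) ∧ Covers E D (w 1) ∧
    ∃ F, IsInj E F D (w 2)) (by
      unfold Covers
      repeat' first
        | exact UDef.mem _ _ | exact udef_sub _ _ | exact UDef.isInj _ _ _
        | apply UDef.and | apply UDef.imp | apply UDef.all | apply UDef.ex)
    (l3 hγ hZ g.omega_mem) fun p hp => ?_
  obtain ⟨q, -, q₁, q₂⟩ := g.dir hp hp₀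
  refine ⟨q, q₁, {DN, eN} ∪ range (fun w : K => bN (j w.1)),
    (toFinite _).countable.union (countable_range _), fun g' hq hN hl => ?_⟩
  have b₁ : DN ∈ g'.N := hN (Or.inl (by simp))
  have b₂ : eN ∈ g'.N := hN (Or.inl (by simp))
  have b₃ : γ ∈ g'.N := hl _ (by simp)
  have b₄ : ZN X ∈ g'.N := hl _ (by simp)
  refine ⟨g'.v DN, fun W hW => ?_, fun x hx => ?_, ?_⟩
  · obtain ⟨w, h₁, h₂, rfl⟩ := (E_v b₁).1 hW
    exact ((hw w.1 w.2.1).2.2 g' h₁ h₂ b₃ (hN (Or.inr ⟨w, rfl⟩))).1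
  · obtain ⟨⟨i, r⟩, hz, rfl⟩ := (E_ZN b₄).1 hx
    refine dens (Ψ := fun M E w => ∃ U, E U (w 0) ∧ E (w 1) U)
      (UDef.ex ((UDef.mem _ _).and (UDef.mem _ _))) (l2 b₁ hz) fun p' hp' => ?_
    obtain ⟨s, -, s₁, s₂⟩ := g'.dir hp' hq
    have hs : s ≤ p₀ := s₂.trans q₂
    obtain ⟨p, a₁, a₂⟩ := hF (s, i) hs r
    obtain ⟨a₃, a₄, a₅⟩ := hw (s, i, p) hs
    obtain ⟨t', a₆, a₇⟩ := extend_in a₄ a₂
    refine ⟨t', a₆.trans (a₃.trans s₁), {bN (j (s, i, p)), ω (s, i, p), γ}, (toFinite _).countable,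
      fun g₂ ht hN₂ hl₂ => ⟨g₂.v (ω (s, i, p)), ?_, ?_⟩⟩
    · exact (E_v (hl₂ DN (by simp))).2 ⟨⟨(s, i, p), hs, a₁⟩, g₂.up ht a₆,
        hN₂ (show ω (s, i, p) ∈ _ by simp), rfl⟩
    · exact (a₅ g₂ (g₂.up ht a₆) (hN₂ (by simp)) (hN₂ (by simp)) (hN₂ (by simp))).2 _
        ((pt_mem_bN (hl₂ _ (by simp)) (hN₂ (by simp))).2 ⟨t', ht, a₇⟩)
  · refine inj_of_rel (Q := fun W ξ => App g'.E (g'.v eN) W ξ) (by fun_prop) (fun W hW => ?_)
      fun W W' ξ _ _ h h' => ?_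
    · obtain ⟨w, -, h₂, rfl⟩ := (E_v b₁).1 hW
      exact ⟨g'.nat (e w), nat_om _, (app_relN b₂).2 ⟨w, g'.top, h₂, nat_mem _, rfl, rfl⟩⟩
    · obtain ⟨w, -, -, -, rfl, rfl⟩ := (app_relN b₂).1 h
      obtain ⟨w', -, -, -, rfl, e'⟩ := (app_relN b₂).1 h'
      rw [he (nat_inj (g := g') e')]

end Pool.Agent.MP_be203f_lc
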