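import Pool.Agent.MP_be203f_lc.Pos
import Pool.Agent.MP_be203f_lc.Space

namespace Pool.Agent.MP_be203f_lc

open Pool.Agent.MP_c6cf52_lc Pool.Agent.MP_c6cf52_lc.Name Pool.Agent.MP_c6cf52_lc.Gen Set Cardinal

universe u

section General

variable {P : Type u} [Preorder P] [OrderTop P] {g : Gen P}

theorem exists_ord_inj (c : g.M) : ∃ δ F, IsOrd g.E δ ∧ IsInj g.E F c δ := by
  obtain ⟨τ, hτ, rfl⟩ := exists_v c
  let mN : Name P := setN (woWf τ.I) univ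
  let eN : Name P := relN τ.A (fun j => ordN (woWf τ.I) j) fun _ => ⊤
  refine dens (Ψ := fun M E w => ∃ δ F, IsOrd E δ ∧ IsInj E F (w 0) δ) (by
      unfold IsOrd
      repeat' first
        | exact UDef.mem _ _ | exact UDef.eq _ _ | exact UDef.isInj _ _ _ | apply UDef.or
        | apply UDef.and | apply UDef.imp | apply UDef.all | apply UDef.ex)
    (l1 hτ) fun p _ => ⟨p, le_rfl, {mN, eN}, (toFinite _).countable, fun g' _ hC hl => ?_⟩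
  have b₁ : mN ∈ g'.N := hC (by simp)
  have b₂ : eN ∈ g'.N := hC (by simp)
  have b₃ : τ ∈ g'.N := hl _ (by simp)
  obtain ⟨F, hF⟩ := inj_of_rel (D := g'.v τ) (a := g'.v mN)
    (Q := fun W ξ => App g'.E (g'.v eN) W ξ) (by fun_prop) (fun W hW => by
      obtain ⟨i, -, hi, rfl⟩ := (E_v b₃).1 hW
      exact dens (Ψ := fun M E w => ∃ ξ, E ξ (w 0) ∧ App E (w 1) (w 2) ξ)
        (UDef.ex ((UDef.mem _ _).and (UDef.app _ _ _))) (l3 b₁ b₂ hi) fun q _ =>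
        ⟨q, le_rfl, {ordN (woWf τ.I) i}, countable_singleton _, fun g₂ _ hC₂ hl₂ =>
          ⟨_, (E_setN _ (hl₂ mN (by simp))).2 ⟨i, trivial, hC₂ rfl, rfl⟩,
            (app_relN (hl₂ eN (by simp))).2
              ⟨i, g₂.top, hl₂ (τ.A i) (by simp), hC₂ rfl, rfl, rfl⟩⟩⟩)
    fun W W' ξ _ _ h h' => by
      obtain ⟨w, -, -, a₁, rfl, rfl⟩ := (app_relN b₂).1 h
      obtain ⟨w', -, -, a₂, rfl, e'⟩ := (app_relN b₂).1 h'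
      rw [ord_inj _ (woTri _) a₁ a₂ e']
  exact ⟨_, F, isOrd_setN _ (woTri _) b₁ fun _ _ _ _ => trivial, hF⟩

theorem inj_comp {A B C F G : g.M} (hF : IsInj g.E F A B) (hG : IsInj g.E G B C) :
    ∃ H, IsInj g.E H A C :=
  inj_of_rel (Q := fun a c => ∃ b, App g.E F a b ∧ App g.E G b c) (by fun_prop)
    (fun a ha => by
      obtain ⟨b, hb, h₁⟩ := fun_ex hF.1 ha
      obtain ⟨c, hc, h₂⟩ := fun_ex hG.1 hb
      exact ⟨c, hc, b, h₁, h₂⟩)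
    fun a a' c _ _ ⟨b, h₁, h₂⟩ ⟨b', h₃, h₄⟩ => hF.2 _ _ _ h₁ (hG.2 _ _ _ h₂ h₄ ▸ h₃)

theorem inj_mono {A B C F : g.M} (hF : IsInj g.E F A B) (h : Sub g.E B C) : IsInj g.E F A C :=
  ⟨⟨fun p hp =>
    let ⟨a, b, h₁, h₂, h₃⟩ := hF.1.1 p hp
    ⟨a, b, h₁, h b h₂, h₃⟩, hF.1.2⟩, hF.2⟩

theorem exists_card (c : g.M) : ∃ m F, IsCard g.E m ∧ IsInj g.E F c m ∧
    ∀ a, g.E a m → ¬ ∃ F', IsInj g.E F' c a := by
  obtain ⟨δ, F, h₁, h₂⟩ := exists_ord_inj c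
  obtain ⟨m, ⟨h₃, F, h₄⟩, hmin⟩ := E_wf.has_min {δ | IsOrd g.E δ ∧ ∃ F, IsInj g.E F c δ}
    ⟨δ, h₁, F, h₂⟩
  have : ∀ a, g.E a m → ¬ ∃ F', IsInj g.E F' c a := fun a ha h =>
    hmin a ⟨isOrd_of_E h₃ ha, h⟩ ha
  exact ⟨m, F, ⟨h₃, fun a ha ⟨G, hG⟩ => this a ha (inj_comp h₄ hG)⟩, h₄, this⟩

theorem exists_top {Z B : g.M} (h₁ : ∀ b, g.E b B → Sub g.E b Z) (h₂ : Covers g.E B Z)
    (h₃ : ∀ b b' x, g.E b B → g.E b' B → g.E x b → g.E x b' →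
      ∃ c, g.E c B ∧ ∀ y, g.E y c ↔ g.E y b ∧ g.E y b') :
    ∃ T, IsTop g.E Z T ∧ Sub g.E B T ∧
      ∀ U x, g.E U T → g.E x U → ∃ V, g.E V B ∧ g.E x V ∧ Sub g.E V U := by
  obtain ⟨Q, hQ⟩ := exists_power Z
  obtain ⟨T, hT⟩ := tm_sep (Q := fun W => ∀ x, g.E x W → ∃ V, g.E V B ∧ g.E x V ∧
    ∀ y, g.E y V → g.E y W) (by fun_prop) Q
  simp only [hQ] at hT
  refine ⟨T, ⟨fun U hU => ((hT U).1 hU).1, (hT Z).2 ⟨fun _ h => h, fun x hx => ?_⟩,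
    fun U V W hU hV hW => (hT W).2 ⟨fun y hy => ((hT U).1 hU).1 y ((hW y).1 hy).1, fun x hx => ?_⟩,
    fun S W hS hW => (hT W).2 ⟨fun y hy => ?_, fun x hx => ?_⟩⟩,
    fun b hb => (hT b).2 ⟨h₁ b hb, fun x hx => ⟨b, hb, hx, fun _ h => h⟩⟩,
    fun U x hU hx => ((hT U).1 hU).2 x hx⟩
  · obtain ⟨b, hb, h⟩ := h₂ x hx
    exact ⟨b, hb, h, h₁ b hb⟩
  · obtain ⟨b, b₁, b₂, b₃⟩ := ((hT U).1 hU).2 x ((hW x).1 hx).1
    obtain ⟨b', c₁, c₂, c₃⟩ := ((hT V).1 hV).2 x ((hW x).1 hx).2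
    obtain ⟨c, d₁, d₂⟩ := h₃ b b' x b₁ c₁ b₂ c₂
    exact ⟨c, d₁, (d₂ x).2 ⟨b₂, c₂⟩, fun y hy =>
      (hW y).2 ⟨b₃ y ((d₂ y).1 hy).1, c₃ y ((d₂ y).1 hy).2⟩⟩
  · obtain ⟨U, hU, h⟩ := (hW y).1 hy
    exact ((hT U).1 (hS U hU)).1 y h
  · obtain ⟨U, hU, h⟩ := (hW x).1 hx
    obtain ⟨b, b₁, b₂, b₃⟩ := ((hT U).1 (hS U hU)).2 x h
    exact ⟨b, b₁, b₂, fun y hy => (hW y).2 ⟨U, hU, b₃ y hy⟩⟩

theorem exists_square (Z T : g.M) : ∃ Y S, IsSquare g.E Z T Y S := by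
  obtain ⟨Y, hY⟩ := exists_prod Z Z
  obtain ⟨Q, hQ⟩ := exists_power Y
  obtain ⟨S, hS⟩ := tm_sep (Q := fun W => ∀ p a b, g.E p W → p = pr a b →
    ∃ U V, g.E U T ∧ g.E V T ∧ g.E a U ∧ g.E b V ∧
      ∀ q c d, g.E c U → g.E d V → q = pr c d → g.E q W) (by fun_prop) Q
  refine ⟨Y, S, ?_, fun W => ?_⟩
  · simpa only [isPair_iff] using hY
  · simp only [isPair_iff, hS, hQ, Sub]

end General

variable {X : Type u} [LinearOrder X] [WC X] {g : Gen Co.{u}}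

theorem sN_inj {s s' : Set X} (h : sN s ∈ g.N) (h' : sN s' ∈ g.N)
    (e : g.v (sN s) = g.v (sN s')) : s = s' := by
  obtain ⟨p, -, H⟩ := transfer (UDef.eq 0 1) (l2 h h') e
  ext x
  obtain ⟨g', hp, hC⟩ := exists_gen p {sN s, sN s', o x} (toFinite _).countable
  have b₁ : sN s ∈ g'.N := hC (by simp)
  have b₂ : sN s' ∈ g'.N := hC (by simp)
  have b₃ : o x ∈ g'.N := hC (by simp)
  have e' : g'.v (sN s) = g'.v (sN s') := H g' hp (l2 b₁ b₂)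
  rw [← o_mem_sN b₃ b₁, ← o_mem_sN b₃ b₂, e']

theorem exists_code : ∃ c : Ix X → Set X, Function.Injective c := by
  have : Nonempty X := (mk_ne_zero_iff.1 (WC.unc.trans' aleph0_pos).ne')
  have : #(X × ULift.{u} ℕ) ≤ #X := by
    rw [mk_prod, lift_id, lift_id]
    exact mul_le_of_le WC.unc.le le_rfl (mk_le_aleph0.trans WC.unc.le)
  obtain ⟨e⟩ := this
  let c : Ix X → Set (X × ULift.{u} ℕ) := fun j => {z | match z.2.down with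
    | 0 => j.i = true
    | 1 => z.1 ∈ j.A
    | n + 2 => z.1 ∈ j.φ n}
  refine ⟨fun j => e '' c j, fun j j' h => ?_⟩
  have h' : ∀ z, z ∈ c j ↔ z ∈ c j' := Set.ext_iff.1 (e.injective.image_injective h)
  obtain ⟨i, A, φ, _⟩ := j
  obtain ⟨i', A', φ', _⟩ := j'
  obtain rfl : i = i' := Bool.eq_iff_iff.2 (h' (Classical.arbitrary X, ⟨0⟩))
  obtain rfl : A = A' := Set.ext fun x => h' (x, ⟨1⟩)
  obtain rfl : φ = φ' := funext fun n => Set.ext fun x => h' (x, ⟨n + 2⟩)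
  rfl

theorem base_inj (hk : kN X ∈ g.N) (hB : BN X ∈ g.N) (Q : g.M)
    (hQ : ∀ x, g.E x Q ↔ Sub g.E x (g.v (kN X))) : ∃ F, IsInj g.E F (g.v (BN X)) Q := by
  obtain ⟨c, hc⟩ := exists_code (X := X)
  let rN : Name Co.{u} := relN bN (fun j => sN (c j)) fun _ => ⊤
  refine dens (Ψ := fun M E w => ∀ Q, (∀ x, E x Q ↔ Sub E x (w 0)) → ∃ F, IsInj E F (w 1) Q)
    (by
      repeat' first
        | exact UDef.mem _ _ | exact udef_sub _ _ | exact UDef.isInj _ _ _ | apply UDef.iff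
        | apply UDef.imp | apply UDef.all | apply UDef.ex)
    (l2 hk hB) (fun p _ => ⟨p, le_rfl, {rN}, countable_singleton _, fun g' _ hC hl Q hQ => ?_⟩)
    Q hQ
  have b₁ : rN ∈ g'.N := hC rfl
  have b₂ : kN X ∈ g'.N := hl _ (by simp)
  have b₃ : BN X ∈ g'.N := hl _ (by simp)
  refine inj_of_rel (Q := fun W ξ => App g'.E (g'.v rN) W ξ) (by fun_prop) (fun W hW => ?_)
    fun W W' ξ _ _ h h' => ?_
  · obtain ⟨j, hj, rfl⟩ := (E_BN b₃).1 hW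
    simp only [hQ]
    refine dens (Ψ := fun M E w => ∃ ξ, Sub E ξ (w 0) ∧ App E (w 1) (w 2) ξ)
      (UDef.ex ((udef_sub _ _).and (UDef.app _ _ _))) (l3 b₂ b₁ hj) fun q _ =>
      ⟨q, le_rfl, {sN (c j)}, countable_singleton _, fun g₂ _ hC₂ hl₂ =>
        ⟨g₂.v (sN (c j)), fun x hx => ?_, (app_relN (hl₂ rN (by simp))).2
          ⟨j, g₂.top, hl₂ (bN j) (by simp), hC₂ rfl, rfl, rfl⟩⟩⟩
    obtain ⟨y, -, hy, rfl⟩ := (E_sN (hC₂ rfl)).1 hx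
    exact o_k (hl₂ _ (by simp)) hy
  · obtain ⟨w, -, -, a₁, rfl, rfl⟩ := (app_relN b₁).1 h
    obtain ⟨w', -, -, a₂, rfl, e'⟩ := (app_relN b₁).1 h'
    rw [hc (sN_inj a₁ a₂ e')]

variable (X) in
/-- The name of the enumeration of the closed discrete set. -/
noncomputable def dN : Name Co.{u} :=
  relN (fun x : X => o x) (fun x => pairN (ptN (false, pure x)) (ptN (true, pure x))) fun _ => ⊤

theorem app_dN (hd : dN X ∈ g.N) {a y : g.M} : App g.E (g.v (dN X)) a y ↔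
    ∃ x : X, o x ∈ g.N ∧ ptN (false, pure x) ∈ g.N ∧ ptN (true, pure x) ∈ g.N ∧ a = g.v (o x) ∧
      y = pr (g.v (ptN (false, pure x))) (g.v (ptN (true, pure x))) := by
  unfold dN at hd ⊢
  rw [app_relN hd]
  constructor
  · rintro ⟨x, -, h₁, h₂, rfl, rfl⟩
    obtain ⟨h₃, h₄⟩ := pairN_mem_iff.1 h₂
    exact ⟨x, h₁, h₃, h₄, rfl, v_pairN h₃ h₄⟩
  · rintro ⟨x, h₁, h₃, h₄, rfl, rfl⟩
    exact ⟨x, g.top, h₁, pairN_mem_iff.2 ⟨h₃, h₄⟩, rfl, (v_pairN h₃ h₄).symm⟩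

theorem d_total (hk : kN X ∈ g.N) (hZ : ZN X ∈ g.N) (hd : dN X ∈ g.N) {a : g.M}
    (ha : g.E a (g.v (kN X))) : ∃ y c c', App g.E (g.v (dN X)) a y ∧ g.E c (g.v (ZN X)) ∧
      g.E c' (g.v (ZN X)) ∧ IsPair g.E y c c' := by
  obtain ⟨x, hx, rfl⟩ := (E_k hk).1 ha
  refine dens (Ψ := fun M E w => ∃ y c c', App E (w 0) (w 1) y ∧ E c (w 2) ∧
      E c' (w 2) ∧ IsPair E y c c') (by
      repeat' first
        | exact UDef.mem _ _ | exact UDef.app _ _ _ | exact UDef.isPair _ _ _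
        | apply UDef.and | apply UDef.ex)
    (l3 hd hx hZ) fun p _ => ⟨p, le_rfl, {ptN (false, pure x), ptN (true, pure x)},
      (toFinite _).countable, fun g' _ hC hl => ?_⟩
  have b₁ : ptN (false, pure x) ∈ g'.N := hC (by simp)
  have b₂ : ptN (true, pure x) ∈ g'.N := hC (by simp)
  have b₃ : ZN X ∈ g'.N := hl _ (by simp)
  exact ⟨_, _, _, (app_dN (hl (dN X) (by simp))).2 ⟨x, hl (o x) (by simp), b₁, b₂, rfl, rfl⟩,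
    (E_ZN b₃).2 ⟨_, b₁, rfl⟩, (E_ZN b₃).2 ⟨_, b₂, rfl⟩, isPair_pr _ _⟩

theorem d_discrete (hZ : ZN X ∈ g.N) (hB : BN X ∈ g.N) (hd : dN X ∈ g.N) {c c' : g.M}
    (hc : g.E c (g.v (ZN X))) (hc' : g.E c' (g.v (ZN X))) :
    ∃ b b', g.E b (g.v (BN X)) ∧ g.E b' (g.v (BN X)) ∧ g.E c b ∧ g.E c' b' ∧
      ∀ a a' y y' e e' f f', App g.E (g.v (dN X)) a y → App g.E (g.v (dN X)) a' y' →
        IsPair g.E y e e' → IsPair g.E y' f f' → g.E e b → g.E e' b' → g.E f b → g.E f' b' →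
        a = a' := by
  obtain ⟨z, hz, rfl⟩ := (E_ZN hZ).1 hc
  obtain ⟨z', hz', rfl⟩ := (E_ZN hZ).1 hc'
  obtain ⟨j, j', h₁, h₂, h₃⟩ := sep_box WC.nm z z'
  refine dens (Ψ := fun M E w => ∃ b b', E b (w 0) ∧ E b' (w 0) ∧ E (w 1) b ∧ E (w 2) b' ∧
      ∀ a a' y y' e e' f f', App E (w 3) a y → App E (w 3) a' y' →
        IsPair E y e e' → IsPair E y' f f' → E e b → E e' b' → E f b → E f' b' → a = a') (by
      repeat' first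
        | exact UDef.mem _ _ | exact UDef.app _ _ _ | exact UDef.isPair _ _ _ | exact UDef.eq _ _
        | apply UDef.and | apply UDef.imp | apply UDef.all | apply UDef.ex)
    (l4 hB hz hz' hd) fun p _ => ⟨p, le_rfl, {bN j, bN j'},
      (toFinite _).countable, fun g' _ hC hl => ?_⟩
  have b₁ : bN j ∈ g'.N := hC (by simp)
  have b₂ : bN j' ∈ g'.N := hC (by simp)
  have b₃ : BN X ∈ g'.N := hl _ (by simp)
  have b₄ : dN X ∈ g'.N := hl _ (by simp)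
  refine ⟨_, _, (E_BN b₃).2 ⟨j, b₁, rfl⟩, (E_BN b₃).2 ⟨j', b₂, rfl⟩,
    (pt_mem_bN (hl (ptN z) (by simp)) b₁).2 ⟨⊤, g'.top, h₁⟩,
    (pt_mem_bN (hl (ptN z') (by simp)) b₂).2 ⟨⊤, g'.top, h₂⟩,
    fun a a' y y' e e' f f' c₁ c₂ c₃ c₄ c₅ c₆ c₇ c₈ => ?_⟩
  obtain ⟨x, -, x₁, x₂, rfl, rfl⟩ := (app_dN b₄).1 c₁
  obtain ⟨x', -, x₃, x₄, rfl, rfl⟩ := (app_dN b₄).1 c₂
  obtain ⟨rfl, rfl⟩ := pr_inj.1 (isPair_iff.1 c₃)
  obtain ⟨rfl, rfl⟩ := pr_inj.1 (isPair_iff.1 c₄)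
  obtain ⟨q₁, d₁, e₁⟩ := (pt_mem_bN x₁ b₁).1 c₅
  obtain ⟨q₂, d₂, e₂⟩ := (pt_mem_bN x₂ b₂).1 c₆
  obtain ⟨q₃, d₃, e₃⟩ := (pt_mem_bN x₃ b₁).1 c₇
  obtain ⟨q₄, d₄, e₄⟩ := (pt_mem_bN x₄ b₂).1 c₈
  obtain ⟨r₁, r₂, r₃, r₄⟩ := g'.dir d₁ d₂
  obtain ⟨s₁, s₂, s₃, s₄⟩ := g'.dir d₃ d₄
  obtain ⟨t, -, t₁, t₂⟩ := g'.dir r₂ s₂
  rw [h₃ x x' t (e₁.mono (t₁.trans r₃)) (e₂.mono (t₁.trans r₄)) (e₃.mono (t₂.trans s₃))
    (e₄.mono (t₂.trans s₄))]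

theorem not_compact (hk : kN X ∈ g.N) (hZ : ZN X ∈ g.N) (hB : BN X ∈ g.N) (hd : dN X ∈ g.N)
    {T Y S : g.M} (hT : Sub g.E (g.v (BN X)) T) (hS : IsSquare g.E (g.v (ZN X)) T Y S) :
    ¬ KCompact g.E (g.v (kN X)) Y S := by
  intro h
  obtain ⟨C, hC⟩ := tm_sep (Q := fun W => ∀ a a' y y', App g.E (g.v (dN X)) a y →
    App g.E (g.v (dN X)) a' y' → g.E y W → g.E y' W → a = a') (by fun_prop) S
  obtain ⟨D, a, φ, h₁, h₂, h₃, h₄⟩ := h C (fun W hW => ((hC W).1 hW).1) fun p hp => by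
    obtain ⟨c, c', hc, hc', e⟩ := (hS.1 p).1 hp
    obtain ⟨b, b', b₁, b₂, b₃, b₄, b₅⟩ := d_discrete hZ hB hd hc hc'
    obtain ⟨W, hW⟩ := exists_prod b b'
    refine ⟨W, (hC W).2 ⟨(hS.2 W).2 ⟨fun y hy => ?_, fun y s t hy e' => ?_⟩,
      fun a a' y y' a₁ a₂ hy hy' => ?_⟩, (hW p).2 ⟨c, c', b₃, b₄, isPair_iff.1 e⟩⟩
    · obtain ⟨s, t, hs, ht, rfl⟩ := (hW y).1 hy
      exact (hS.1 _).2 ⟨s, t, base_sub hZ hB b₁ s hs, base_sub hZ hB b₂ t ht, isPair_pr _ _⟩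
    · obtain ⟨s', t', hs, ht, rfl⟩ := (hW y).1 hy
      obtain ⟨rfl, rfl⟩ := pr_inj.1 (isPair_iff.1 e')
      exact ⟨b, b', hT b b₁, hT b' b₂, hs, ht, fun q s t hs ht e =>
        (hW q).2 ⟨s, t, hs, ht, isPair_iff.1 e⟩⟩
    · obtain ⟨s, t, hs, ht, rfl⟩ := (hW y).1 hy
      obtain ⟨s', t', hs', ht', rfl⟩ := (hW y').1 hy'
      exact b₅ _ _ _ _ _ _ _ _ a₁ a₂ (isPair_pr _ _) (isPair_pr _ _) hs ht hs' ht'
  obtain ⟨γ, c₁, c₂⟩ := reg_aux hk (Or.inl h₃) (Q := fun i β => ∃ W y, App g.E φ W i ∧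
    App g.E (g.v (dN X)) β y ∧ g.E y W) (by fun_prop)
  obtain ⟨y, c, c', y₁, y₂, y₃, y₄⟩ := d_total hk hZ hd c₁
  obtain ⟨W, W₁, W₂⟩ := h₂ y ((hS.1 y).2 ⟨c, c', y₂, y₃, y₄⟩)
  obtain ⟨i, hi, e⟩ := fun_ex h₄.1 W₁
  obtain ⟨β, β₁, W', y', β₂, β₃, β₄⟩ := c₂ i hi ⟨γ, c₁, W, y, e, y₁, W₂⟩
  obtain rfl := h₄.2 _ _ _ β₂ e
  obtain rfl := ((hC _).1 (h₁ _ W₁)).2 _ _ _ _ β₃ y₁ β₄ W₂
  exact E_irrefl _ β₁

theorem main' (X : Type u) [LinearOrder X] [WC X] :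
    ∃ (M : Type (u + 1)) (E : M → M → Prop), WellFounded E ∧ IsZFC E ∧
      ∃ w k m, IsOmega E w ∧ IsCard E k ∧ IsCard E m ∧ E w k ∧ E k m ∧ IsExp E k m ∧
        SqCompact E k k ∧ ¬ SqCompact E k m := by
  obtain ⟨g, -, hC⟩ := exists_gen (⊤ : Co.{u}) {kN X, ZN X, BN X, dN X} (toFinite _).countable
  have hk : kN X ∈ g.N := hC (by simp)
  have hZ : ZN X ∈ g.N := hC (by simp)
  have hB : BN X ∈ g.N := hC (by simp)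
  have hd : dN X ∈ g.N := hC (by simp)
  obtain ⟨T, t₁, t₂, t₃⟩ := exists_top (fun b hb => base_sub hZ hB hb) (base_cover hZ hB)
    fun b b' x hb hb' hx hx' => base_inter hB hb hb' hx hx'
  obtain ⟨Y, S, hS⟩ := exists_square (g.v (ZN X)) T
  obtain ⟨Q, hQ⟩ := exists_power (g.v (kN X))
  obtain ⟨m, F, m₁, m₂, m₃⟩ := exists_card Q
  obtain ⟨F', hF'⟩ := base_inj hk hB Q hQ
  obtain ⟨F₂, hF₂⟩ := inj_comp hF' m₂
  have hc : KCompact g.E (g.v (kN X)) (g.v (ZN X)) T := fun C h₁ h₂ => by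
    obtain ⟨D, d₁, d₂, f, d₃⟩ := lindelof hZ hB (C := C) fun x hx => by
      obtain ⟨W, W₁, W₂⟩ := h₂ x hx
      exact ⟨W, W₁, t₃ W x (h₁ W W₁) W₂⟩
    exact ⟨D, g.om, f, d₁, d₂, om_mem_k hk, d₃⟩
  have key : ∀ l, Sub g.E m l → ¬ SqCompact g.E (g.v (kN X)) l := fun l hl h =>
    not_compact hk hZ hB hd t₂ hS (h _ _ _ _ t₁ ⟨_, F₂, t₂, t₃, inj_mono hF₂ hl⟩ hS hc)
  refine ⟨g.M, g.E, E_wf, g.isZFC, g.om, g.v (kN X), m, isOmega_om, isCard_k hk, m₁, om_mem_k hk,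
    ?_, ⟨Q, hQ, ⟨F, m₂⟩, m₃⟩, sqCompact_k hk, key m fun _ h => h⟩
  rcases ord_tri (isOrd_k hk) m₁.1 with h | h | h
  · exact h
  · exact absurd (sqCompact_k hk) (key _ fun _ hx => h ▸ hx)
  · exact absurd (sqCompact_k hk) (key _ fun _ hx => (isOrd_k hk).1 _ _ h hx)

theorem main (X : Type u) [Uncountable X] (h : Part X) :
    ∃ (M : Type (u + 1)) (E : M → M → Prop), WellFounded E ∧ IsZFC E ∧
      ∃ w k m, IsOmega E w ∧ IsCard E k ∧ IsCard E m ∧ E w k ∧ E k m ∧ IsExp E k m ∧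
        SqCompact E k k ∧ ¬ SqCompact E k m := by
  obtain ⟨Y, _, _⟩ := exists_wc h
  exact main' Y

end Pool.Agent.MP_be203f_lc
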