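import Pool.Agent.MP_be203f_lc.Force

namespace Pool.Agent.MP_be203f_lc

open Pool.Agent.MP_c6cf52_lc Pool.Agent.MP_c6cf52_lc.Name Pool.Agent.MP_c6cf52_lc.Gen Set Cardinal

universe u

variable {P : Type u} [Preorder P] [OrderTop P] {g : Gen P}
variable {X : Type u} [LinearOrder X] [WC X] [Countable P]

theorem converge (hk : kN X ∈ g.N) {Z T B f H : g.M} (hB : Sub g.E B T)
    (hf : IsInj g.E f B (g.v (kN X))) (hc : KCompact g.E (g.v (kN X)) Z T)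
    (hH₁ : ∀ α, g.E α H → g.E α (g.v (kN X)))
    (hH₂ : ∀ x, g.E x (g.v (kN X)) → ∃ α, g.E α H ∧ g.E x α)
    {x : g.Elt (g.v (kN X)) → g.M} (hx : g.Tm x) (hxZ : ∀ a, g.E (x a) Z)
    (hdec : ∀ ξ, g.E ξ (g.v (kN X)) → Dec g (g.v (kN X)) H
      (fun α => ∃ b, App g.E f b ξ ∧ ∃ a : g.Elt (g.v (kN X)), a.1 = α ∧ g.E (x a) b)) :
    ∃ x₀, g.E x₀ Z ∧ ∀ b, g.E b B → g.E x₀ b → ∃ β, g.E β (g.v (kN X)) ∧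
      ∀ a : g.Elt (g.v (kN X)), g.E a.1 H → g.E β a.1 → g.E (x a) b := by
  by_contra hn
  push Not at hn
  obtain ⟨C, hC⟩ := tm_sep (Q := fun b => ∃ β, g.E β (g.v (kN X)) ∧
    ∀ a : g.Elt (g.v (kN X)), g.E a.1 H → g.E β a.1 → ¬ g.E (x a) b) (by fun_prop) B
  obtain ⟨D, a, φ, h₁, h₂, h₃, h₄⟩ := hc C (fun b hb => hB b ((hC b).1 hb).1) fun x₀ hx₀ => by
    obtain ⟨b, b₁, b₂, b₃⟩ := hn x₀ hx₀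
    refine ⟨b, (hC b).2 ⟨b₁, ?_⟩, b₂⟩
    obtain ⟨ξ, hξ, e⟩ := fun_ex hf.1 b₁
    obtain ⟨β, hβ, h | h⟩ := hdec ξ hξ
    · obtain ⟨a, a₁, a₂, a₃⟩ := b₃ β hβ
      obtain ⟨b', e', a', rfl, a₄⟩ : ∃ b', App g.E f b' ξ ∧ ∃ a', a' = a ∧ g.E (x a') b' := by
        obtain ⟨b', e', a', e'', a₄⟩ := h a.1 a₁ a₂
        exact ⟨b', e', a', Subtype.ext e'', a₄⟩
      exact absurd (hf.2 _ _ _ e' e ▸ a₄) a₃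
    · exact ⟨β, hβ, fun a a₁ a₂ a₃ => h a.1 a₁ a₂ ⟨b, e, a, rfl, a₃⟩⟩
  obtain ⟨γ, c₁, c₂⟩ := reg_aux hk (Or.inl h₃) (Q := fun i β => ∀ b, App g.E φ b i →
    ∀ a : g.Elt (g.v (kN X)), g.E a.1 H → g.E β a.1 → ¬ g.E (x a) b) (by fun_prop)
  obtain ⟨α, α₁, α₂⟩ := hH₂ γ c₁
  obtain ⟨b, b₁, b₂⟩ := h₂ _ (hxZ ⟨α, hH₁ α α₁⟩)
  obtain ⟨i, hi, e⟩ := fun_ex h₄.1 b₁
  obtain ⟨β₀, β₁, β₂⟩ := ((hC b).1 (h₁ b b₁)).2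
  obtain ⟨β, β₃, β₄⟩ := c₂ i hi ⟨β₀, β₁, fun b' e' => h₄.2 _ _ _ e e' ▸ β₂⟩
  exact β₄ b e ⟨α, hH₁ α α₁⟩ α₁ (E_trans (isOrd_k hk) (hH₁ α α₁) β₃ α₂) b₂

theorem sqCompact_k (hk : kN X ∈ g.N) : SqCompact g.E (g.v (kN X)) (g.v (kN X)) := by
  rintro Z T Y S - ⟨B, f, hB, hbase, hf⟩ ⟨hY, hS⟩ hc C hC hcov
  by_contra hn
  obtain ⟨π, π₁, π₂⟩ := exists_pairing hk
  let Idx : g.M → g.M → g.M → Prop := fun ξ b b' =>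
    ∃ s t, App g.E f b s ∧ App g.E f b' t ∧ App g.E π (pr s t) ξ
  have uniq : ∀ ξ b b' c c', Idx ξ b b' → Idx ξ c c' → b = c ∧ b' = c' := by
    rintro ξ b b' c c' ⟨s, t, h₁, h₂, h₃⟩ ⟨s', t', h₄, h₅, h₆⟩
    obtain ⟨rfl, rfl⟩ := pr_inj.1 (π₂ _ _ _ h₃ h₆)
    exact ⟨hf.2 _ _ _ h₁ h₄, hf.2 _ _ _ h₂ h₅⟩
  let Good : g.M → g.M → Prop := fun ξ W => g.E W C ∧ ∃ b b', Idx ξ b b' ∧
    ∀ c d, g.E c b → g.E d b' → g.E (pr c d) W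
  have claim : ∀ γ : g.Elt (g.v (kN X)), ∃ z : g.M × g.M, g.E z.1 Z ∧ g.E z.2 Z ∧
      ∀ ξ, g.E ξ γ.1 → (∃ W, Good ξ W) → ¬ ∃ b b', Idx ξ b b' ∧ g.E z.1 b ∧ g.E z.2 b' := by
    rintro ⟨γ, hγ⟩
    by_contra h
    push Not at h
    obtain ⟨W, hW, hW'⟩ := tm_choice (Γ := g.Elt γ)
      (Q := fun ξ W => (∃ W', Good ξ.1 W') → Good ξ.1 W) (by simp only [Good, Idx]; fun_prop)
      fun ξ => by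
        by_cases h : ∃ W', Good ξ.1 W'
        · exact ⟨h.choose, fun _ => h.choose_spec⟩
        · exact ⟨γ, fun h' => absurd h' h⟩
    obtain ⟨D, hD⟩ := tm_image (Γ := g.Elt γ) (Q := fun ξ => ∃ W', Good ξ.1 W')
      (by simp only [Good, Idx]; fun_prop) hW
    obtain ⟨F, hF⟩ := inj_of_rel (D := D) (a := γ)
      (Q := fun V ξ => ∃ η : g.Elt γ, η.1 = ξ ∧ W η = V) (by fun_prop)
      (fun V hV => by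
        obtain ⟨η, -, rfl⟩ := (hD V).1 hV
        exact ⟨η.1, η.2, η, rfl, rfl⟩)
      (by
        rintro _ _ _ - - ⟨η, rfl, rfl⟩ ⟨η', e, rfl⟩
        rw [Subtype.ext e])
    refine hn ⟨D, γ, F, fun V hV => ?_, fun p hp => ?_, hγ, hF⟩
    · obtain ⟨η, h₁, rfl⟩ := (hD V).1 hV
      exact (hW' η h₁).1
    · obtain ⟨a, b, ha, hb, e⟩ := (hY p).1 hp
      obtain rfl := isPair_iff.1 e
      obtain ⟨ξ, h₁, h₂, c, c', h₃, h₄, h₅⟩ := h (a, b) ha hb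
      obtain ⟨-, d, d', h₆, h₇⟩ := hW' ⟨ξ, h₁⟩ h₂
      obtain ⟨rfl, rfl⟩ := uniq _ _ _ _ _ h₃ h₆
      exact ⟨W ⟨ξ, h₁⟩, (hD _).2 ⟨_, h₂, rfl⟩, h₇ _ _ h₄ h₅⟩
  obtain ⟨z, hz, hz'⟩ := tm_choice (by simp only [Good, Idx]; fun_prop) claim
  obtain ⟨H, H₁, H₂, H₃⟩ := wc_two hk
    (Q₁ := fun ξ α => ∃ b, App g.E f b ξ ∧ ∃ a : g.Elt (g.v (kN X)), a.1 = α ∧ g.E (z a).1 b)
    (Q₂ := fun ξ α => ∃ b, App g.E f b ξ ∧ ∃ a : g.Elt (g.v (kN X)), a.1 = α ∧ g.E (z a).2 b)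
    (by fun_prop) (by fun_prop)
  obtain ⟨x₀, x₁, x₂⟩ := converge hk hB hf hc H₁ H₂ (x := fun a => (z a).1) (by fun_prop)
    (fun a => (hz' a).1) fun ξ hξ => (H₃ ξ hξ).1
  obtain ⟨y₀, y₁, y₂⟩ := converge hk hB hf hc H₁ H₂ (x := fun a => (z a).2) (by fun_prop)
    (fun a => (hz' a).2.1) fun ξ hξ => (H₃ ξ hξ).2
  obtain ⟨W, W₁, W₂⟩ := hcov _ ((hY _).2 ⟨x₀, y₀, x₁, y₁, isPair_pr _ _⟩)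
  obtain ⟨U, V, U₁, V₁, U₂, V₂, hUV⟩ := ((hS W).1 (hC W W₁)).2 _ _ _ W₂ (isPair_pr _ _)
  obtain ⟨b, b₁, b₂, b₃⟩ := hbase U x₀ U₁ U₂
  obtain ⟨b', c₁, c₂, c₃⟩ := hbase V y₀ V₁ V₂
  obtain ⟨s, hs, es⟩ := fun_ex hf.1 b₁
  obtain ⟨t, ht, et⟩ := fun_ex hf.1 c₁
  obtain ⟨ξ, hξ, eξ⟩ := π₁ s t hs ht
  obtain ⟨β, β₁, β₂⟩ := x₂ b b₁ b₂
  obtain ⟨β', β₃, β₄⟩ := y₂ b' c₁ c₂
  have ab : ∀ a b, g.E a (g.v (kN X)) → g.E b (g.v (kN X)) →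
      ∃ α, g.E α H ∧ g.E a α ∧ g.E b α := by
    intro a b ha hb
    rcases (isOrd_k hk).2 a b ha hb with h | rfl | h
    · obtain ⟨α, h₁, h₂⟩ := H₂ b hb
      exact ⟨α, h₁, E_trans (isOrd_k hk) (H₁ α h₁) h h₂, h₂⟩
    · obtain ⟨α, h₁, h₂⟩ := H₂ a ha
      exact ⟨α, h₁, h₂, h₂⟩
    · obtain ⟨α, h₁, h₂⟩ := H₂ a ha
      exact ⟨α, h₁, h₂, E_trans (isOrd_k hk) (H₁ α h₁) h h₂⟩
  obtain ⟨α', a₁, a₂, a₃⟩ := ab β β' β₁ β₃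
  obtain ⟨α, a₄, a₅, a₆⟩ := ab α' ξ (H₁ _ a₁) hξ
  have hα := H₁ α a₄
  exact (hz' ⟨α, hα⟩).2.2 ξ a₆ ⟨W, W₁, b, b', ⟨s, t, es, et, eξ⟩, fun c d hc hd =>
      hUV _ c d (b₃ c hc) (c₃ d hd) (isPair_pr _ _)⟩
    ⟨b, b', ⟨s, t, es, et, eξ⟩, β₂ ⟨α, hα⟩ a₄ (E_trans (isOrd_k hk) hα a₂ a₅),
      β₄ ⟨α, hα⟩ a₄ (E_trans (isOrd_k hk) hα a₃ a₅)⟩

end Pool.Agent.MP_be203f_lc
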