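import Pool.Agent.MP_be203f_lc.Main

open Pool.Agent.MP_c6cf52_lc Pool.Agent.MP_be203f_lc

universe u

theorem Pool.Agent.Results.MP_be203f_lc.Separate.result (X : Type u) [Uncountable X]
    (hX : ∀ c : Sym2 X → Bool, ∃ H : Set X, Cardinal.mk H = Cardinal.mk X ∧
      ∃ i, ∀ a ∈ H, ∀ b ∈ H, a ≠ b → c (Sym2.mk a b) = i) :
    ∃ (M : Type (u + 1)) (E : M → M → Prop), WellFounded E ∧ IsZFC E ∧
      ∃ w k m, IsOmega E w ∧ IsCard E k ∧ IsCard E m ∧ E w k ∧ E k m ∧ IsExp E k m ∧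
        SqCompact E k k ∧ ¬ SqCompact E k m :=
  main X hX
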